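import Mathlib

/-!
Gaussian double large sieve inequality.
-/

namespace Pool.Agent.P.MP_bf60a1_an

open MeasureTheory Complex Real
open scoped ENNReal RealInnerProductSpace

variable {V : Type*} [NormedAddCommGroup V] [InnerProductSpace ℝ V] [FiniteDimensional ℝ V]
  [MeasurableSpace V] [BorelSpace V]

lemma gauss_int_real {b : ℝ} (hb : 0 < b) :
    Integrable (fun w : V => Real.exp (-b * ‖w‖ ^ 2)) := by
  have h := (GaussianFourier.integrable_cexp_neg_mul_sq_norm_add (V := V) (b := (b : ℂ))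
    (by simpa using hb) 0 (0 : V)).norm
  refine h.congr (Filter.Eventually.of_forall fun w => ?_)
  simp only [Complex.norm_exp]
  congr 1
  simp [← Complex.ofReal_pow]

lemma gauss_lint {b : ℝ} (hb : 0 < b) (u : V) :
    ∫⁻ w : V, ENNReal.ofReal (Real.exp (-b * ‖w - u‖ ^ 2)) =
      ENNReal.ofReal ((π / b) ^ (Module.finrank ℝ V / 2 : ℝ)) := by
  rw [lintegral_sub_right_eq_self (fun w : V => ENNReal.ofReal (Real.exp (-b * ‖w‖ ^ 2))) u,
    ← ofReal_integral_eq_lintegral_ofReal (gauss_int_real hb)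
      (Filter.Eventually.of_forall fun w => (Real.exp_pos _).le),
    GaussianFourier.integral_rexp_neg_mul_sq_norm hb]

/-- Fourier transform of a Gaussian, real normalisation. -/
lemma gauss_ft {b : ℝ} (hb : 0 < b) (t : ℝ) (v : V) :
    ∫ w : V, (Real.exp (-b * ‖w‖ ^ 2) : ℂ) * cexp (I * t * (⟪w, v⟫ : ℝ)) =
      (((π / b) ^ (Module.finrank ℝ V / 2 : ℝ) * Real.exp (-(t ^ 2 * ‖v‖ ^ 2) / (4 * b)) : ℝ) : ℂ) := by
  have h := GaussianFourier.integral_cexp_neg_mul_sq_norm_add (V := V) (b := (b : ℂ))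
    (by simpa using hb) (I * t) v
  have h1 : (fun w : V => (Real.exp (-b * ‖w‖ ^ 2) : ℂ) * cexp (I * t * (⟪w, v⟫ : ℝ))) =
      fun w : V => cexp (-(b : ℂ) * ‖w‖ ^ 2 + I * t * (⟪v, w⟫ : ℝ)) := by
    funext w
    rw [Complex.exp_add, real_inner_comm]
    push_cast
    rfl
  rw [h1, h]
  push_cast
  rw [Complex.ofReal_cpow (by positivity)]
  push_cast
  congr 2
  rw [mul_pow, I_sq]
  ring

/-- Reproducing formula for a character. -/
lemma gauss_repr {τ : ℝ} (hτ : τ ≠ 0) (u v : V) :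
    ∫ w : V, (Real.exp (-(τ ^ 2 / 2) * ‖w - u‖ ^ 2) : ℂ) * cexp (I * τ * (⟪w, v⟫ : ℝ)) =
      (((π / (τ ^ 2 / 2)) ^ (Module.finrank ℝ V / 2 : ℝ) * Real.exp (-(‖v‖ ^ 2) / 2) : ℝ) : ℂ) *
        cexp (I * τ * (⟪u, v⟫ : ℝ)) := by
  have hb : 0 < τ ^ 2 / 2 := by positivity
  rw [← integral_add_right_eq_self _ u]
  have h1 : (fun w : V => (Real.exp (-(τ ^ 2 / 2) * ‖w + u - u‖ ^ 2) : ℂ) *
      cexp (I * τ * (⟪w + u, v⟫ : ℝ))) = fun w : V =>
      ((Real.exp (-(τ ^ 2 / 2) * ‖w‖ ^ 2) : ℂ) * cexp (I * τ * (⟪w, v⟫ : ℝ))) *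
        cexp (I * τ * (⟪u, v⟫ : ℝ)) := by
    funext w
    rw [add_sub_cancel_right, inner_add_left, mul_assoc _ (cexp _), ← Complex.exp_add]
    push_cast
    congr 2
    ring
  rw [h1, integral_mul_const, gauss_ft hb]
  congr 4
  field_simp
  ring

lemma norm_cexp_I_mul (t x : ℝ) : ‖cexp (I * t * x)‖ = 1 := by
  rw [show I * t * x = ((t * x : ℝ) : ℂ) * I by push_cast; ring]
  exact Complex.norm_exp_ofReal_mul_I _

variable {Ω₁ Ω₂ : Type*} [MeasurableSpace Ω₁] [MeasurableSpace Ω₂]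

/-- The weighted exponential sum. -/
noncomputable def expSum (β : Measure Ω₂) (v : Ω₂ → V) (b : Ω₂ → ℂ) (τ : ℝ) (w : V) : ℂ :=
  ∫ ζ, b ζ * cexp (I * τ * (⟪w, v ζ⟫ : ℝ)) ∂β

lemma meas_expSum (β : Measure Ω₂) [SFinite β] {v : Ω₂ → V} (hv : Measurable v) {b : Ω₂ → ℂ}
    (hb : Measurable b) (τ : ℝ) : Measurable (expSum β v b τ) := by
  have : StronglyMeasurable (Function.uncurry
      fun (w : V) (ζ : Ω₂) => b ζ * cexp (I * τ * (⟪w, v ζ⟫ : ℝ))) := by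
    apply Measurable.stronglyMeasurable
    unfold Function.uncurry
    fun_prop
  exact (this.integral_prod_right (ν := β)).measurable

/-- mean square of the exponential sum against a Gaussian weight -/
lemma expSum_sq (β : Measure Ω₂) [IsFiniteMeasure β] {v : Ω₂ → V} (hv : Measurable v)
    {b : Ω₂ → ℂ} (hb : Measurable b) {M : ℝ} (hM : ∀ ζ, ‖b ζ‖ ≤ M) (τ : ℝ) :
    ∫⁻ w : V, ‖expSum β v b τ w‖ₑ ^ 2 * ENNReal.ofReal (Real.exp (-‖w‖ ^ 2)) ≤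
      ENNReal.ofReal (M ^ 2 * π ^ (Module.finrank ℝ V / 2 : ℝ)) *
        ∫⁻ p : Ω₂ × Ω₂, ENNReal.ofReal (Real.exp (-(τ ^ 2 * ‖v p.1 - v p.2‖ ^ 2) / 4))
          ∂(β.prod β) := by
  set H : V → Ω₂ × Ω₂ → ℂ := fun w p => (b p.1 * (starRingEnd ℂ) (b p.2)) *
    ((Real.exp (-1 * ‖w‖ ^ 2) : ℂ) * cexp (I * τ * (⟪w, v p.1 - v p.2⟫ : ℝ))) with hH
  have hHm : Measurable (Function.uncurry H) := by
    unfold Function.uncurry
    simp only [hH]
    fun_prop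
  have hHb : ∀ w p, ‖H w p‖ ≤ Real.exp (-1 * ‖w‖ ^ 2) * M ^ 2 := by
    intro w p
    have h0 : 0 ≤ M := (norm_nonneg _).trans (hM p.1)
    simp only [hH, norm_mul, norm_cexp_I_mul, Complex.norm_real, Complex.norm_conj,
      Real.norm_eq_abs, abs_of_pos (Real.exp_pos _), mul_one]
    have := mul_le_mul (hM p.1) (hM p.2) (norm_nonneg _) h0
    nlinarith [Real.exp_pos (-1 * ‖w‖ ^ 2)]
  have hHi : Integrable (Function.uncurry H) ((volume : Measure V).prod (β.prod β)) := by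
    refine Integrable.mono' (g := fun q => Real.exp (-1 * ‖q.1‖ ^ 2) * M ^ 2) ?_
      hHm.aestronglyMeasurable (Filter.Eventually.of_forall fun q => hHb q.1 q.2)
    exact (gauss_int_real (V := V) one_pos).mul_prod (integrable_const (M ^ 2))
  have h1 : ∀ w, ∫ p, H w p ∂(β.prod β) =
      ((‖expSum β v b τ w‖ ^ 2 * Real.exp (-‖w‖ ^ 2) : ℝ) : ℂ) := by
    intro w
    have : (fun p : Ω₂ × Ω₂ => H w p) = fun p => (Real.exp (-‖w‖ ^ 2) : ℂ) *
        ((b p.1 * cexp (I * τ * (⟪w, v p.1⟫ : ℝ))) *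
        (starRingEnd ℂ) (b p.2 * cexp (I * τ * (⟪w, v p.2⟫ : ℝ)))) := by
      funext p
      simp only [hH, map_mul, ← Complex.exp_conj, conj_I, Complex.conj_ofReal, inner_sub_right]
      rw [show I * τ * ((⟪w, v p.1⟫ - ⟪w, v p.2⟫ : ℝ) : ℂ) =
        I * τ * (⟪w, v p.1⟫ : ℝ) + -I * τ * (⟪w, v p.2⟫ : ℝ) by push_cast; ring, Complex.exp_add]
      rw [neg_one_mul]
      ring
    rw [this, integral_const_mul,
      integral_prod_mul (fun ζ => b ζ * cexp (I * τ * (⟪w, v ζ⟫ : ℝ)))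
        (fun ζ => (starRingEnd ℂ) (b ζ * cexp (I * τ * (⟪w, v ζ⟫ : ℝ)))), integral_conj]
    change _ * (expSum β v b τ w * (starRingEnd ℂ) (expSum β v b τ w)) = _
    rw [Complex.mul_conj, Complex.normSq_eq_norm_sq]
    push_cast
    ring
  have h2 : ∀ p, ∫ w, H w p = (b p.1 * (starRingEnd ℂ) (b p.2)) *
      ((π ^ (Module.finrank ℝ V / 2 : ℝ) *
        Real.exp (-(τ ^ 2 * ‖v p.1 - v p.2‖ ^ 2) / 4) : ℝ) : ℂ) := by
    intro p
    simp only [hH]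
    rw [integral_const_mul, gauss_ft one_pos]
    simp
  have h3 := integral_integral_swap hHi
  simp only [h1, h2] at h3
  rw [integral_complex_ofReal] at h3
  have hi : Integrable (fun w : V => ‖expSum β v b τ w‖ ^ 2 * Real.exp (-‖w‖ ^ 2)) := by
    have := hHi.integral_prod_left
    simp only [Function.uncurry, h1] at this
    exact this.re
  have h4 : ∫⁻ w : V, ‖expSum β v b τ w‖ₑ ^ 2 * ENNReal.ofReal (Real.exp (-‖w‖ ^ 2)) =
      ENNReal.ofReal (∫ w : V, ‖expSum β v b τ w‖ ^ 2 * Real.exp (-‖w‖ ^ 2)) := by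
    rw [ofReal_integral_eq_lintegral_ofReal hi
      (Filter.Eventually.of_forall fun w => by positivity)]
    congr 1
    funext w
    rw [ENNReal.ofReal_mul (by positivity), ENNReal.ofReal_pow (norm_nonneg _), ofReal_norm]
  rw [h4]
  calc ENNReal.ofReal (∫ w : V, ‖expSum β v b τ w‖ ^ 2 * Real.exp (-‖w‖ ^ 2))
      ≤ ‖(((∫ w : V, ‖expSum β v b τ w‖ ^ 2 * Real.exp (-‖w‖ ^ 2)) : ℝ) : ℂ)‖ₑ := by
        rw [← ofReal_norm, Complex.norm_real]
        exact ENNReal.ofReal_le_ofReal (le_abs_self _)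
    _ ≤ ∫⁻ p : Ω₂ × Ω₂, ‖(b p.1 * (starRingEnd ℂ) (b p.2)) *
      ((π ^ (Module.finrank ℝ V / 2 : ℝ) *
        Real.exp (-(τ ^ 2 * ‖v p.1 - v p.2‖ ^ 2) / 4) : ℝ) : ℂ)‖ₑ ∂(β.prod β) := by
        rw [h3]; exact enorm_integral_le_lintegral_enorm _
    _ ≤ ∫⁻ p : Ω₂ × Ω₂, ENNReal.ofReal (M ^ 2 * π ^ (Module.finrank ℝ V / 2 : ℝ)) *
        ENNReal.ofReal (Real.exp (-(τ ^ 2 * ‖v p.1 - v p.2‖ ^ 2) / 4)) ∂(β.prod β) := by
        refine lintegral_mono fun p => ?_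
        have h0 : 0 ≤ M := (norm_nonneg _).trans (hM p.1)
        rw [← ofReal_norm, ← ENNReal.ofReal_mul (by positivity)]
        apply ENNReal.ofReal_le_ofReal
        rw [norm_mul, norm_mul, Complex.norm_conj, Complex.norm_real, Real.norm_eq_abs,
          abs_of_nonneg (by positivity), mul_assoc (M ^ 2)]
        apply mul_le_mul_of_nonneg_right _ (by positivity)
        rw [sq]
        exact mul_le_mul (hM p.1) (hM p.2) (norm_nonneg _) h0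
    _ = _ := by
        rw [lintegral_const_mul]
        fun_prop


omit [FiniteDimensional ℝ V] [MeasurableSpace V] [BorelSpace V] in
lemma mid_ineq {τ R : ℝ} (hτ : 4 ≤ τ ^ 2) (w u u' : V) (hu : ‖u‖ ≤ R) (hu' : ‖u'‖ ≤ R) :
    -(τ ^ 2 / 2) * ‖w - u‖ ^ 2 + -(τ ^ 2 / 2) * ‖w - u'‖ ^ 2 + ‖w‖ ^ 2 ≤
      2 * R ^ 2 + -(τ ^ 2 * ‖u - u'‖ ^ 2) / 4 +
        -(τ ^ 2 / 2) * ‖w - (1 / 2 : ℝ) • (u + u')‖ ^ 2 := by
  set c := (1 / 2 : ℝ) • (u + u') with hc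
  set d := (1 / 2 : ℝ) • (u - u') with hd
  have e1 : w - u = (w - c) - d := by rw [hc, hd]; module
  have e2 : w - u' = (w - c) + d := by rw [hc, hd]; module
  have e3 : ‖d‖ = ‖u - u'‖ / 2 := by
    rw [hd, norm_smul]; simp; ring
  have e4 : ‖c‖ ≤ R := by
    rw [hc, norm_smul]
    have := norm_add_le u u'
    simp only [one_div, norm_inv, Real.norm_ofNat]
    linarith
  have p := parallelogram_law_with_norm ℝ (w - c) d
  have e5 : ‖w‖ ≤ ‖w - c‖ + R := by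
    calc ‖w‖ = ‖(w - c) + c‖ := by simp
      _ ≤ ‖w - c‖ + ‖c‖ := norm_add_le _ _
      _ ≤ _ := by linarith
  have e6 : ‖w‖ ^ 2 ≤ 2 * ‖w - c‖ ^ 2 + 2 * R ^ 2 := by
    have : ‖w‖ ^ 2 ≤ (‖w - c‖ + R) ^ 2 := by gcongr
    nlinarith [sq_nonneg (‖w - c‖ - R)]
  rw [e1, e2]
  have e7 : ‖w - c - d‖ ^ 2 + ‖w - c + d‖ ^ 2 = 2 * ‖w - c‖ ^ 2 + ‖u - u'‖ ^ 2 / 2 := by
    rw [e3] at p
    nlinarith
  have e8 : 2 * ‖w - c‖ ^ 2 ≤ (τ ^ 2 / 2) * ‖w - c‖ ^ 2 := by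
    apply mul_le_mul_of_nonneg_right _ (sq_nonneg _); linarith
  have e9 : -(τ ^ 2 / 2) * ‖w - c - d‖ ^ 2 + -(τ ^ 2 / 2) * ‖w - c + d‖ ^ 2 =
      -(τ ^ 2 / 2) * (2 * ‖w - c‖ ^ 2 + ‖u - u'‖ ^ 2 / 2) := by rw [← e7]; ring
  rw [e9]
  nlinarith

/-- the smoothed measure -/
noncomputable def smooth (α : Measure Ω₁) (u : Ω₁ → V) (τ : ℝ) (w : V) : ℝ≥0∞ :=
  ∫⁻ ω, ENNReal.ofReal (Real.exp (-(τ ^ 2 / 2) * ‖w - u ω‖ ^ 2)) ∂α

lemma meas_smooth (α : Measure Ω₁) [SFinite α] {u : Ω₁ → V} (hu : Measurable u) (τ : ℝ) :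
    Measurable (smooth α u τ) := by
  unfold smooth
  apply Measurable.lintegral_prod_right
  unfold Function.uncurry
  fun_prop

lemma smooth_sq (α : Measure Ω₁) [IsFiniteMeasure α] {u : Ω₁ → V} (hu : Measurable u)
    {R τ : ℝ} (hR : ∀ ω, ‖u ω‖ ≤ R) (hτ : 4 ≤ τ ^ 2) :
    ∫⁻ w : V, smooth α u τ w ^ 2 * ENNReal.ofReal (Real.exp (‖w‖ ^ 2)) ≤
      ENNReal.ofReal (Real.exp (2 * R ^ 2) * (π / (τ ^ 2 / 2)) ^ (Module.finrank ℝ V / 2 : ℝ)) *
        ∫⁻ p : Ω₁ × Ω₁, ENNReal.ofReal (Real.exp (-(τ ^ 2 * ‖u p.1 - u p.2‖ ^ 2) / 4))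
          ∂(α.prod α) := by
  have hb : 0 < τ ^ 2 / 2 := by linarith
  have h1 : ∀ w : V, smooth α u τ w ^ 2 * ENNReal.ofReal (Real.exp (‖w‖ ^ 2)) =
      ∫⁻ p : Ω₁ × Ω₁, ENNReal.ofReal (Real.exp (-(τ ^ 2 / 2) * ‖w - u p.1‖ ^ 2 +
        -(τ ^ 2 / 2) * ‖w - u p.2‖ ^ 2 + ‖w‖ ^ 2)) ∂(α.prod α) := by
    intro w
    have hm : Measurable fun ω => ENNReal.ofReal (Real.exp (-(τ ^ 2 / 2) * ‖w - u ω‖ ^ 2)) := by
      fun_prop
    rw [sq, smooth, ← lintegral_prod_mul hm.aemeasurable hm.aemeasurable,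
      ← lintegral_mul_const _ (by fun_prop)]
    congr 1
    funext p
    rw [Real.exp_add, Real.exp_add, ENNReal.ofReal_mul (by positivity),
      ENNReal.ofReal_mul (by positivity)]
  simp only [h1]
  rw [lintegral_lintegral_swap (by
    apply Measurable.aemeasurable
    unfold Function.uncurry
    fun_prop), ← lintegral_const_mul _ (by fun_prop)]
  refine lintegral_mono fun p => ?_
  calc _ ≤ ∫⁻ w : V, ENNReal.ofReal (Real.exp (2 * R ^ 2 + -(τ ^ 2 * ‖u p.1 - u p.2‖ ^ 2) / 4)) *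
        ENNReal.ofReal (Real.exp (-(τ ^ 2 / 2) * ‖w - (1 / 2 : ℝ) • (u p.1 + u p.2)‖ ^ 2)) := by
        refine lintegral_mono fun w => ?_
        rw [← ENNReal.ofReal_mul (by positivity), ← Real.exp_add]
        exact ENNReal.ofReal_le_ofReal (Real.exp_le_exp.2 (mid_ineq hτ w _ _ (hR _) (hR _)))
    _ = _ := by
        rw [lintegral_const_mul _ (by fun_prop), gauss_lint hb,
          ← ENNReal.ofReal_mul (by positivity), ← ENNReal.ofReal_mul (by positivity), Real.exp_add]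
        congr 1
        ring

lemma char_repr (β : Measure Ω₂) [IsFiniteMeasure β] {v : Ω₂ → V} (hv : Measurable v)
    {b : Ω₂ → ℂ} (hb : Measurable b) (hb1 : ∀ ζ, ‖b ζ‖ ≤ 1) {R τ : ℝ} (hR : ∀ ζ, ‖v ζ‖ ≤ R)
    (hτ : τ ≠ 0) (u : V) :
    (((π / (τ ^ 2 / 2)) ^ (Module.finrank ℝ V / 2 : ℝ) : ℝ) : ℂ) * expSum β v b τ u =
      ∫ w : V, (Real.exp (-(τ ^ 2 / 2) * ‖w - u‖ ^ 2) : ℂ) *
        expSum β v (fun ζ => b ζ * Real.exp (‖v ζ‖ ^ 2 / 2)) τ w := by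
  have hb0 : 0 < τ ^ 2 / 2 := by positivity
  set H : V → Ω₂ → ℂ := fun w ζ => (b ζ * Real.exp (‖v ζ‖ ^ 2 / 2)) *
    ((Real.exp (-(τ ^ 2 / 2) * ‖w - u‖ ^ 2) : ℂ) * cexp (I * τ * (⟪w, v ζ⟫ : ℝ))) with hH
  have hHm : Measurable (Function.uncurry H) := by
    unfold Function.uncurry
    simp only [hH]
    fun_prop
  have hHi : Integrable (Function.uncurry H) ((volume : Measure V).prod β) := by
    refine Integrable.mono'
      (g := fun q => Real.exp (-(τ ^ 2 / 2) * ‖q.1 - u‖ ^ 2) * Real.exp (R ^ 2 / 2)) ?_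
      hHm.aestronglyMeasurable (Filter.Eventually.of_forall fun q => ?_)
    · exact ((gauss_int_real (V := V) hb0).comp_sub_right u).mul_prod (integrable_const _)
    · simp only [Function.uncurry, hH, norm_mul, norm_cexp_I_mul, Complex.norm_real,
        Real.norm_eq_abs, abs_of_pos (Real.exp_pos _), mul_one]
      rw [mul_comm]
      apply mul_le_mul_of_nonneg_left _ (Real.exp_pos _).le
      have h1 : Real.exp (‖v q.2‖ ^ 2 / 2) ≤ Real.exp (R ^ 2 / 2) := by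
        have := hR q.2
        gcongr
      calc _ ≤ 1 * Real.exp (R ^ 2 / 2) := mul_le_mul (hb1 _) h1 (Real.exp_pos _).le zero_le_one
        _ = _ := one_mul _
  have h3 := integral_integral_swap hHi
  have h4 : ∀ w, ∫ ζ, H w ζ ∂β = (Real.exp (-(τ ^ 2 / 2) * ‖w - u‖ ^ 2) : ℂ) *
        expSum β v (fun ζ => b ζ * Real.exp (‖v ζ‖ ^ 2 / 2)) τ w := by
    intro w
    rw [expSum, ← integral_const_mul]
    congr 1
    funext ζ
    simp only [hH]
    ring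
  have h5 : ∀ ζ, ∫ w, H w ζ = (((π / (τ ^ 2 / 2)) ^ (Module.finrank ℝ V / 2 : ℝ) : ℝ) : ℂ) *
      (b ζ * cexp (I * τ * (⟪u, v ζ⟫ : ℝ))) := by
    intro ζ
    simp only [hH]
    rw [integral_const_mul, gauss_repr hτ]
    have : (Real.exp (‖v ζ‖ ^ 2 / 2) : ℂ) * (Real.exp (-‖v ζ‖ ^ 2 / 2) : ℂ) = 1 := by
      rw [← Complex.ofReal_mul, ← Real.exp_add]
      simp [neg_div]
    rw [Complex.ofReal_mul]
    linear_combination (((π / (τ ^ 2 / 2)) ^ (Module.finrank ℝ V / 2 : ℝ) : ℝ) : ℂ) *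
      (b ζ * cexp (I * τ * (⟪u, v ζ⟫ : ℝ))) * this
  simp only [h4, h5] at h3
  rw [h3, integral_const_mul, expSum]

/-- Double large sieve. -/
theorem dls (α : Measure Ω₁) [IsFiniteMeasure α] (β : Measure Ω₂) [IsFiniteMeasure β]
    {u : Ω₁ → V} (hu : Measurable u) {v : Ω₂ → V} (hv : Measurable v)
    {a : Ω₁ → ℂ} (ha : Measurable a) (ha1 : ∀ ω, ‖a ω‖ ≤ 1)
    {b : Ω₂ → ℂ} (hb : Measurable b) (hb1 : ∀ ζ, ‖b ζ‖ ≤ 1) {R τ X Y : ℝ}
    (huR : ∀ ω, ‖u ω‖ ≤ R) (hvR : ∀ ζ, ‖v ζ‖ ≤ R) (hτ : 4 ≤ τ ^ 2) (hX0 : 0 ≤ X) (hY0 : 0 ≤ Y)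
    (hX : ∫⁻ p : Ω₁ × Ω₁, ENNReal.ofReal (Real.exp (-(τ ^ 2 * ‖u p.1 - u p.2‖ ^ 2) / 4))
      ∂(α.prod α) ≤ ENNReal.ofReal X)
    (hY : ∫⁻ p : Ω₂ × Ω₂, ENNReal.ofReal (Real.exp (-(τ ^ 2 * ‖v p.1 - v p.2‖ ^ 2) / 4))
      ∂(β.prod β) ≤ ENNReal.ofReal Y) :
    ‖∫ p : Ω₁ × Ω₂, a p.1 * b p.2 * cexp (I * τ * (⟪u p.1, v p.2⟫ : ℝ)) ∂(α.prod β)‖ ^ 2 ≤
      Real.exp (3 * R ^ 2) * (τ ^ 2) ^ (Module.finrank ℝ V / 2 : ℝ) * X * Y := by
  have hτ0 : τ ≠ 0 := by rintro rfl; norm_num at hτ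
  have hb0 : 0 < τ ^ 2 / 2 := by positivity
  set m : ℝ := (Module.finrank ℝ V / 2 : ℝ) with hm
  set P : ℝ := (π / (τ ^ 2 / 2)) ^ m with hP
  have hP0 : 0 < P := by positivity
  set b' : Ω₂ → ℂ := fun ζ => b ζ * Real.exp (‖v ζ‖ ^ 2 / 2) with hb'
  have hb'm : Measurable b' := by simp only [hb']; fun_prop
  have hb'1 : ∀ ζ, ‖b' ζ‖ ≤ Real.exp (R ^ 2 / 2) := by
    intro ζ
    simp only [hb', norm_mul, Complex.norm_real, Real.norm_eq_abs, abs_of_pos (Real.exp_pos _)]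
    have h1 : Real.exp (‖v ζ‖ ^ 2 / 2) ≤ Real.exp (R ^ 2 / 2) := by
      have := hvR ζ
      gcongr
    calc _ ≤ 1 * Real.exp (R ^ 2 / 2) := mul_le_mul (hb1 _) h1 (Real.exp_pos _).le zero_le_one
      _ = _ := one_mul _
  have hF := meas_expSum β hv hb'm τ
  set B := ∫ p : Ω₁ × Ω₂, a p.1 * b p.2 * cexp (I * τ * (⟪u p.1, v p.2⟫ : ℝ)) ∂(α.prod β)
    with hB
  have hB1 : B = ∫ ω, a ω * expSum β v b τ (u ω) ∂α := by
    rw [hB, integral_prod]
    · congr 1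
      funext ω
      rw [expSum, ← integral_const_mul]
      congr 1
      funext ζ
      ring
    · refine Integrable.mono' (integrable_const (1 : ℝ))
        (Measurable.aestronglyMeasurable (by fun_prop)) (Filter.Eventually.of_forall fun q => ?_)
      rw [norm_mul, norm_mul, norm_cexp_I_mul, mul_one]
      exact mul_le_one₀ (ha1 _) (norm_nonneg _) (hb1 _)
  have hB2 : ENNReal.ofReal P * ‖B‖ₑ ≤ ∫⁻ w : V, smooth α u τ w * ‖expSum β v b' τ w‖ₑ := by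
    calc ENNReal.ofReal P * ‖B‖ₑ = ‖∫ ω, a ω * ((P : ℂ) * expSum β v b τ (u ω)) ∂α‖ₑ := by
          have : (fun ω => a ω * ((P : ℂ) * expSum β v b τ (u ω))) =
              fun ω => (P : ℂ) * (a ω * expSum β v b τ (u ω)) := by funext ω; ring
          rw [this, integral_const_mul, ← hB1, enorm_mul, ← ofReal_norm (P : ℂ), Complex.norm_real,
            Real.norm_eq_abs, abs_of_pos hP0]
      _ ≤ ∫⁻ ω, ‖a ω * ((P : ℂ) * expSum β v b τ (u ω))‖ₑ ∂α :=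
          enorm_integral_le_lintegral_enorm _
      _ ≤ ∫⁻ ω, (∫⁻ w : V, ENNReal.ofReal (Real.exp (-(τ ^ 2 / 2) * ‖w - u ω‖ ^ 2)) *
            ‖expSum β v b' τ w‖ₑ) ∂α := by
          refine lintegral_mono fun ω => ?_
          have h1 : ‖a ω‖ₑ ≤ 1 := by
            rw [← ofReal_norm]; exact ENNReal.ofReal_le_one.2 (ha1 ω)
          rw [enorm_mul]
          refine (mul_le_of_le_one_left' h1).trans ?_
          rw [hP, hm, char_repr β hv hb hb1 hvR hτ0]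
          refine (enorm_integral_le_lintegral_enorm _).trans (le_of_eq ?_)
          congr 1
          funext w
          rw [enorm_mul, ← ofReal_norm ((Real.exp _ : ℝ) : ℂ), Complex.norm_real,
            Real.norm_eq_abs, abs_of_pos (Real.exp_pos _)]
      _ = _ := by
          rw [lintegral_lintegral_swap (by
            apply Measurable.aemeasurable
            unfold Function.uncurry
            fun_prop)]
          congr 1
          funext w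
          rw [lintegral_mul_const _ (by fun_prop), smooth]
  have hS := meas_smooth α hu τ
  have hH := ENNReal.lintegral_mul_le_Lp_mul_Lq (volume : Measure V) Real.HolderConjugate.two_two
    (f := fun w => smooth α u τ w * ENNReal.ofReal (Real.exp (‖w‖ ^ 2 / 2)))
    (g := fun w => ‖expSum β v b' τ w‖ₑ * ENNReal.ofReal (Real.exp (-‖w‖ ^ 2 / 2)))
    (Measurable.aemeasurable (by fun_prop)) (Measurable.aemeasurable (by fun_prop))
  have e1 : ∀ w : V, ((fun w => smooth α u τ w * ENNReal.ofReal (Real.exp (‖w‖ ^ 2 / 2))) *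
      (fun w => ‖expSum β v b' τ w‖ₑ * ENNReal.ofReal (Real.exp (-‖w‖ ^ 2 / 2)))) w =
      smooth α u τ w * ‖expSum β v b' τ w‖ₑ := by
    intro w
    simp only [Pi.mul_apply]
    rw [mul_mul_mul_comm, ← ENNReal.ofReal_mul (Real.exp_pos _).le, ← Real.exp_add]
    simp [neg_div]
  have e2 : ∀ w : V, (smooth α u τ w * ENNReal.ofReal (Real.exp (‖w‖ ^ 2 / 2))) ^ (2 : ℝ) =
      smooth α u τ w ^ 2 * ENNReal.ofReal (Real.exp (‖w‖ ^ 2)) := by
    intro w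
    rw [ENNReal.rpow_two, mul_pow, ← ENNReal.ofReal_pow (Real.exp_pos _).le, ← Real.exp_nat_mul]
    congr 3
    push_cast; ring
  have e3 : ∀ w : V, (‖expSum β v b' τ w‖ₑ * ENNReal.ofReal (Real.exp (-‖w‖ ^ 2 / 2))) ^ (2 : ℝ) =
      ‖expSum β v b' τ w‖ₑ ^ 2 * ENNReal.ofReal (Real.exp (-‖w‖ ^ 2)) := by
    intro w
    rw [ENNReal.rpow_two, mul_pow, ← ENNReal.ofReal_pow (Real.exp_pos _).le, ← Real.exp_nat_mul]
    congr 3
    push_cast; ring
  simp only [e1, e2, e3] at hH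
  have k1 := (smooth_sq α hu huR hτ).trans (mul_le_mul_right hX _)
  have k2 := (expSum_sq β hv hb'm hb'1 τ).trans (mul_le_mul_right hY _)
  have k3 : (ENNReal.ofReal P * ‖B‖ₑ) ^ 2 ≤
      (ENNReal.ofReal (Real.exp (2 * R ^ 2) * P) * ENNReal.ofReal X) *
      (ENNReal.ofReal (Real.exp (R ^ 2 / 2) ^ 2 * π ^ m) * ENNReal.ofReal Y) := by
    refine (pow_le_pow_left' (hB2.trans hH) 2).trans ?_
    rw [mul_pow, ← ENNReal.rpow_two, ← ENNReal.rpow_two, ← ENNReal.rpow_mul, ← ENNReal.rpow_mul]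
    norm_num
    exact mul_le_mul' k1 k2
  rw [← ofReal_norm, ← ENNReal.ofReal_mul hP0.le, ← ENNReal.ofReal_pow (by positivity),
    ← ENNReal.ofReal_mul (by positivity), ← ENNReal.ofReal_mul (by positivity),
    ← ENNReal.ofReal_mul (by positivity),
    ENNReal.ofReal_le_ofReal_iff (by positivity)] at k3
  have k4 : Real.exp (R ^ 2 / 2) ^ 2 * Real.exp (2 * R ^ 2) = Real.exp (3 * R ^ 2) := by
    rw [← Real.exp_nat_mul, ← Real.exp_add]; congr 1; push_cast; ring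
  have k5 : π ^ m ≤ (τ ^ 2) ^ m * P := by
    rw [hP, ← Real.mul_rpow (by positivity) (by positivity)]
    apply Real.rpow_le_rpow (by positivity) _ (by positivity)
    rw [show τ ^ 2 * (π / (τ ^ 2 / 2)) = 2 * π by field_simp]
    linarith [Real.pi_pos]
  have k6 : P * (P * ‖B‖ ^ 2) ≤ P * (P * (Real.exp (3 * R ^ 2) * (τ ^ 2) ^ m * X * Y)) := by
    calc P * (P * ‖B‖ ^ 2) = (P * ‖B‖) ^ 2 := by ring
      _ ≤ _ := k3
      _ = P * (Real.exp (3 * R ^ 2) * X * Y) * π ^ m := by rw [← k4]; ring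
      _ ≤ P * (Real.exp (3 * R ^ 2) * X * Y) * ((τ ^ 2) ^ m * P) :=
          mul_le_mul_of_nonneg_left k5 (by positivity)
      _ = _ := by ring
  exact le_of_mul_le_mul_left (le_of_mul_le_mul_left k6 hP0) hP0

end Pool.Agent.P.MP_bf60a1_an
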