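import Pool.Agent.P.MP_bf60a1_an.KeySel

/-!
Key lemma: Frostman exponent plus thin tube exponent above the dimension gives a right angle.
-/

namespace Pool.Agent.P.MP_bf60a1_an

open MeasureTheory Real Set Metric
open scoped ENNReal RealInnerProductSpace

variable {E : Type*} [NormedAddCommGroup E] [InnerProductSpace ℝ E]
  [MeasurableSpace E] [BorelSpace E] [FiniteDimensional ℝ E]

lemma localize (μ : Measure E) [IsProbabilityMeasure μ] {s C : ℝ} (hs : 0 < s)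
    (hF : ∀ x r, 0 < r → μ (ball x r) ≤ ENNReal.ofReal (C * r ^ s)) {G : Set (E × E)}
    (hpos : (μ.prod μ) G ≠ 0) :
    ∃ a b : E, a ≠ b ∧ (μ.prod μ) (G ∩ ball a (‖b - a‖ / 10) ×ˢ ball b (‖b - a‖ / 10)) ≠ 0 := by
  have hat : ∀ x, μ {x} = 0 := by
    intro x
    refine le_antisymm (ENNReal.le_of_forall_pos_le_add fun ε hε _ => ?_) zero_le
    obtain ⟨r, hr, h⟩ := small_pow C (ε := ε) hs (by exact_mod_cast hε)
    rw [zero_add, ← ENNReal.ofReal_coe_nnreal]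
    exact (measure_mono (singleton_subset_iff.2 (mem_ball_self hr))).trans
      ((hF x r hr).trans (ENNReal.ofReal_le_ofReal (h r hr le_rfl)))
  have hD : (μ.prod μ) (diagonal E) = 0 := by
    rw [Measure.prod_apply isClosed_diagonal.measurableSet]
    have : ∀ x : E, Prod.mk x ⁻¹' diagonal E = {x} := fun x => by
      ext y; simp [eq_comm]
    simp [this, hat]
  have h1 : (μ.prod μ) (G \ diagonal E) ≠ 0 := by rwa [measure_sdiff_null hD]
  obtain ⟨⟨a, b⟩, ⟨-, hab⟩, h⟩ := exists_mem_forall_mem_nhdsWithin_pos_measure h1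
  have hab' : a ≠ b := hab
  have hd : 0 < ‖b - a‖ / 10 := by
    have := norm_pos_iff.2 (sub_ne_zero.2 hab'.symm); positivity
  refine ⟨a, b, hab', ne_of_gt ((h _ (inter_mem_nhdsWithin _
    (prod_mem_nhds (ball_mem_nhds a hd) (ball_mem_nhds b hd)))).trans_le (measure_mono ?_))⟩
  exact inter_subset_inter_left _ sdiff_subset

omit [BorelSpace E] in
lemma level_set (μ : Measure E) [IsProbabilityMeasure μ] {G : Set (E × E)} (hG : MeasurableSet G)
    (hpos : (μ.prod μ) G ≠ 0) :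
    ∃ c0 : ℝ, 0 < c0 ∧ μ {x | ENNReal.ofReal c0 ≤ μ (Prod.mk x ⁻¹' G)} ≠ 0 := by
  by_contra h
  push Not at h
  apply hpos
  rw [Measure.measure_prod_null hG]
  have h1 : μ (⋃ n : ℕ, {x | ENNReal.ofReal (1 / ((n : ℝ) + 1)) ≤ μ (Prod.mk x ⁻¹' G)}) = 0 :=
    measure_iUnion_null fun n => h _ (by positivity)
  filter_upwards [measure_eq_zero_iff_ae_notMem.1 h1] with x hx
  simp only [mem_iUnion, mem_ofPred_eq, not_exists, not_le] at hx
  by_contra h0
  have h2 : 0 < (μ (Prod.mk x ⁻¹' G)).toReal := ENNReal.toReal_pos h0 (measure_ne_top _ _)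
  obtain ⟨n, hn⟩ := exists_nat_one_div_lt h2
  exact absurd (hx n) (not_lt.2 (ENNReal.ofReal_le_of_le_toReal hn.le))

theorem keyA_gen (μ : Measure E) [IsProbabilityMeasure μ] {K : Set E} (hK : IsCompact K)
    (hμK : μ Kᶜ = 0) {s c C : ℝ} (hs : 1 < s) (hsc : (Module.finrank ℝ E : ℝ) < s + c)
    (hF : ∀ x r, 0 < r → μ (ball x r) ≤ ENNReal.ofReal (C * r ^ s)) {G : Set (E × E)}
    (hG : MeasurableSet G) (hpos : (μ.prod μ) G ≠ 0)
    (hthin : ∀ x y, (x, y) ∈ G → ∀ δ : ℝ, 0 < δ →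
      μ {z | (x, z) ∈ G ∧ ∃ t : ℝ, dist z (x + t • (y - x)) < δ} ≤ ENNReal.ofReal (C * δ ^ c)) :
    ∃ x ∈ K, ∃ y ∈ K, ∃ z ∈ K, x ≠ y ∧ y ≠ z ∧ x ≠ z ∧ ⟪x - y, z - y⟫ = 0 := by
  classical
  obtain ⟨a, b, hab, hG1⟩ := localize μ (by linarith) hF hpos
  set d := ‖b - a‖ with hdd
  have hd : 0 < d := norm_pos_iff.2 (sub_ne_zero.2 hab.symm)
  set B : Set (E × E) := ball a (d / 10) ×ˢ ball b (d / 10) with hB
  have hBm : MeasurableSet B := measurableSet_ball.prod measurableSet_ball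
  set G1 := G ∩ B with hG1d
  have hG1m : MeasurableSet G1 := hG.inter hBm
  obtain ⟨c0, hc0, hX0⟩ := level_set μ hG1m hG1
  set X0 : Set E := {x | ENNReal.ofReal c0 ≤ μ (Prod.mk x ⁻¹' G1)} with hX0d
  have hX0m : MeasurableSet X0 :=
    measurableSet_le measurable_const (measurable_measure_prodMk_left hG1m)
  have hX0B : ∀ x ∈ X0, ‖x - a‖ < d / 10 := by
    intro x hx
    have : μ (Prod.mk x ⁻¹' G1) ≠ 0 := ne_of_gt ((ENNReal.ofReal_pos.2 hc0).trans_le hx)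
    obtain ⟨y, hy⟩ := nonempty_of_measure_ne_zero this
    exact mem_ball_iff_norm.1 hy.2.1
  set e : E := d⁻¹ • (b - a) with hed
  have he : ‖e‖ = 1 := by
    rw [hed, norm_smul, ← hdd, norm_inv, Real.norm_eq_abs, abs_of_pos hd, inv_mul_cancel₀ hd.ne']
  have hgeo : ∀ q ∈ B, 4 * d / 5 ≤ ⟪e, q.2 - q.1⟫ ∧ ‖q.2 - q.1‖ ≤ 6 * d / 5 ∧
      ⟪e, q.2 - q.1⟫ ≤ ‖q.2 - q.1‖ := fun q hq =>
    geo1 hd rfl (mem_ball_iff_norm.1 hq.1) (mem_ball_iff_norm.1 hq.2)
  set θ : E × E → E := fun q => if q ∈ B then ⟪e, q.2 - q.1⟫⁻¹ • (q.2 - q.1) else e with hθd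
  have hθm : Measurable θ := Measurable.ite hBm (by fun_prop) measurable_const
  have hθB : ∀ q ∈ B, θ q = ⟪e, q.2 - q.1⟫⁻¹ • (q.2 - q.1) := fun q hq => if_pos hq
  have hθ2 : ∀ q, ‖θ q‖ ≤ 2 := by
    intro q
    by_cases hq : q ∈ B
    · obtain ⟨h1, h2, -⟩ := hgeo q hq
      have h3 : 0 < ⟪e, q.2 - q.1⟫ := by linarith
      rw [hθB q hq, norm_smul, norm_inv, Real.norm_eq_abs, abs_of_pos h3, inv_mul_le_iff₀ h3]
      linarith
    · simp only [hθd, if_neg hq, he]; norm_num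
  have hθe : ∀ q, ⟪e, θ q⟫ = 1 := by
    intro q
    by_cases hq : q ∈ B
    · have h3 : 0 < ⟪e, q.2 - q.1⟫ := by linarith [(hgeo q hq).1]
      rw [hθB q hq, real_inner_smul_right, inv_mul_cancel₀ h3.ne']
    · simp only [hθd, if_neg hq, real_inner_self_eq_norm_sq, he]; norm_num
  have hth : ∀ x w ρ, 0 < ρ → μ {y | (x, y) ∈ G1 ∧ ‖θ (x, y) - w‖ < ρ} ≤
      ENNReal.ofReal (|C| * (3 * d) ^ c * ρ ^ c) := by
    intro x w ρ hρ
    rcases Set.eq_empty_or_nonempty {y | (x, y) ∈ G1 ∧ ‖θ (x, y) - w‖ < ρ} with h | ⟨y0, h0, h1⟩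
    · rw [h]; simp
    · refine le_trans (measure_mono ?_) ((hthin x y0 h0.1 (3 * d * ρ) (by positivity)).trans ?_)
      · rintro y ⟨h2, h3⟩
        rw [hθB _ h0.2] at h1
        rw [hθB _ h2.2] at h3
        obtain ⟨k1, k2, k3⟩ := hgeo _ h2.2
        exact ⟨h2.1, geo2 (by linarith) (k3.trans k2) h3 h1⟩
      · apply ENNReal.ofReal_le_ofReal
        rw [Real.mul_rpow (by positivity) hρ.le, mul_assoc]
        exact mul_le_mul_of_nonneg_right (le_abs_self C) (by positivity)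
  obtain ⟨e1, he1, ρ, hρ, hcore⟩ := core (E := E) (X := E) (Y := E) (F := 2)
    (K := |C| * (3 * d) ^ c) (c1 := c0 ^ 2 / 40) hs hsc (by norm_num) (by positivity)
    (by positivity)
  set μ' := μ.restrict X0 with hμ'
  obtain ⟨x0, r, hr, hrr, hQ, hsel⟩ := select_ball μ' (C := |C|) (s := s)
    (by rwa [hμ', Measure.restrict_apply_univ]) (abs_nonneg C)
    (fun x r hr => (Measure.restrict_le_self _).trans ((hF x r hr).trans
      (ENNReal.ofReal_le_ofReal (mul_le_mul_of_nonneg_right (le_abs_self C) (by positivity)))))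
    (r0 := min d (e1 * d / 4)) (lt_min hd (by positivity))
  have hrd : r ≤ d := hrr.trans (min_le_left _ _)
  have hre : 4 * r / d ≤ e1 := by
    rw [div_le_iff₀ hd]; linarith [hrr.trans (min_le_right _ _)]
  set Q := ball x0 r with hQd
  set μ1 : Measure E := ProbabilityTheory.cond μ' Q with hμ1
  have : IsProbabilityMeasure μ1 := ProbabilityTheory.cond_isProbabilityMeasure hQ
  have hae : ∀ᵐ x ∂μ1, x ∈ K ∧ x ∈ X0 ∧ x ∈ Q := by
    have h1 : μ1 ≪ μ' := ProbabilityTheory.cond_absolutelyContinuous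
    have h2 : ∀ᵐ x ∂μ', x ∈ K := ae_restrict_of_ae (show ∀ᵐ x ∂μ, x ∈ K from hμK)
    have h3 : ∀ᵐ x ∂μ', x ∈ X0 := ae_restrict_mem hX0m
    filter_upwards [h1.ae_le h2, h1.ae_le h3,
      ProbabilityTheory.ae_cond_mem (μ := μ') (measurableSet_ball (x := x0) (ε := r))]
      with x k1 k2 k3
    exact ⟨k1, k2, k3⟩
  set p : E → E := fun x => if x ∈ Q then r⁻¹ • (x - x0) else 0 with hpd
  have hpm : Measurable p := Measurable.ite measurableSet_ball (by fun_prop) measurable_const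
  have hpQ : ∀ x ∈ Q, p x = r⁻¹ • (x - x0) := fun x hx => if_pos hx
  have hp1 : ∀ x, ‖p x‖ ≤ 1 := by
    intro x
    by_cases hx : x ∈ Q
    · rw [hpQ x hx, norm_smul, norm_inv, Real.norm_eq_abs, abs_of_pos hr, inv_mul_le_iff₀ hr,
        mul_one]
      exact (mem_ball_iff_norm.1 hx).le
    · simp [hpd, if_neg hx]
  have hFr : ∀ w ρ, 0 < ρ → μ1 {x | ‖p x - w‖ < ρ} ≤ ENNReal.ofReal (2 * ρ ^ s) := by
    intro w ρ hρ
    rcases le_total ρ 1 with h1 | h1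
    · rw [hμ1, ProbabilityTheory.cond_apply measurableSet_ball]
      have h2 : Q ∩ {x | ‖p x - w‖ < ρ} ⊆ ball (x0 + r • w) (r * ρ) := by
        rintro x ⟨hx, h3⟩
        have h4 : ‖p x - w‖ < ρ := h3
        rw [hpQ x hx] at h4
        have h5 : x - (x0 + r • w) = r • (r⁻¹ • (x - x0) - w) := by
          rw [smul_sub r, smul_smul, mul_inv_cancel₀ hr.ne', one_smul]; abel
        rw [mem_ball_iff_norm, h5, norm_smul, Real.norm_eq_abs, abs_of_pos hr]
        gcongr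
      calc _ ≤ (μ' Q)⁻¹ * (μ' Q * ENNReal.ofReal (2 * ρ ^ s)) :=
            mul_le_mul_right ((measure_mono h2).trans (hsel _ ρ hρ h1)) _
        _ = _ := by rw [← mul_assoc, ENNReal.inv_mul_cancel hQ (measure_ne_top _ _), one_mul]
    · refine prob_le_one.trans (ENNReal.one_le_ofReal.2 ?_)
      have := Real.one_le_rpow h1 (by linarith : 0 ≤ s)
      linarith
  have hae2 : ∀ᵐ q ∂(((μ1.prod μ).restrict G1).prod μ1),
      (q.1.1 ∈ K ∧ q.1.1 ∈ X0 ∧ q.1.1 ∈ Q) ∧ q.1.2 ∈ K ∧ q.1 ∈ G1 ∧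
        (q.2 ∈ K ∧ q.2 ∈ X0 ∧ q.2 ∈ Q) := by
    have h1 : ∀ᵐ q ∂(μ1.prod μ), q.1 ∈ K ∧ q.1 ∈ X0 ∧ q.1 ∈ Q :=
      Measure.quasiMeasurePreserving_fst.ae hae
    have h2 : ∀ᵐ q ∂(μ1.prod μ), q.2 ∈ K :=
      Measure.quasiMeasurePreserving_snd.ae (show ∀ᵐ x ∂μ, x ∈ K from hμK)
    have h3 : ∀ᵐ q ∂((μ1.prod μ).restrict G1),
        (q.1 ∈ K ∧ q.1 ∈ X0 ∧ q.1 ∈ Q) ∧ q.2 ∈ K ∧ q ∈ G1 := by
      filter_upwards [ae_restrict_of_ae h1, ae_restrict_of_ae h2, ae_restrict_mem hG1m]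
        with q k1 k2 k3
      exact ⟨k1, k2, k3⟩
    filter_upwards [Measure.quasiMeasurePreserving_fst.ae h3,
      Measure.quasiMeasurePreserving_snd.ae hae] with q k1 k2
    exact ⟨k1.1, k1.2.1, k1.2.2, k2⟩
  set k : E × E → ℤ := fun q => if q.1 ∈ Q then ⌊(‖q.2 - q.1‖ ^ 2 - ‖q.2 - x0‖ ^ 2) / r ^ 2⌋
    else 0 with hkd
  have hkm : Measurable k :=
    Measurable.ite (measurable_fst measurableSet_ball) (by fun_prop) measurable_const
  have hdr : 1 ≤ d / r := (one_le_div hr).2 hrd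
  have hen := energy_lower μ1 μ hG1m hkm (Finset.Icc ⌊-(4 * (d / r))⌋ ⌊4 * (d / r)⌋)
    (M := 10 * (d / r)) (c0 := c0) (by
      intro q hq
      rw [Finset.mem_Icc]
      by_cases hx : q.1 ∈ Q
      · have h1 := abs_le.1 (geo4 hrd (mem_ball_iff_norm.1 hx) (hgeo q hq.2).2.1)
        have h2 : 4 * (d / r) = 4 * d * r / r ^ 2 := by field_simp
        simp only [hkd, if_pos hx]
        constructor
        · apply Int.floor_mono
          rw [h2, ← neg_div]; gcongr; exact h1.1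
        · apply Int.floor_mono
          rw [h2]; gcongr; exact h1.2
      · simp only [hkd, if_neg hx]
        exact ⟨Int.floor_nonpos (by linarith), Int.floor_nonneg.2 (by linarith)⟩)
    (by positivity) (by
      rw [Int.card_Icc]
      have h1 := Int.floor_le (4 * (d / r))
      have h2 := Int.lt_floor_add_one (-(4 * (d / r)))
      have h3 : (0 : ℤ) ≤ ⌊4 * (d / r)⌋ + 1 - ⌊-(4 * (d / r))⌋ := by
        have := Int.floor_mono (show -(4 * (d / r)) ≤ 4 * (d / r) by linarith)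
        omega
      rw [← Int.cast_natCast, Int.toNat_of_nonneg h3]
      push_cast
      linarith) hc0.le (by
      rw [Measure.prod_apply hG1m]
      calc ENNReal.ofReal c0 = ∫⁻ _x, ENNReal.ofReal c0 ∂μ1 := by simp
        _ ≤ _ := lintegral_mono_ae (hae.mono fun x hx => hx.2.1))
  have hmain := hcore μ1 μ (by simp) G1 hG1m p hpm hp1 θ hθm hθ2 e he hθe hFr hth (4 * r / d)
    (by positivity) hre (by
      rw [show c0 ^ 2 / 40 * (4 * r / d) = c0 ^ 2 / (10 * (d / r)) by field_simp; ring]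
      refine hen.trans (measure_mono_ae ?_)
      filter_upwards [hae2] with q hq h
      obtain ⟨⟨-, -, k1⟩, -, k2, -, -, k3⟩ := hq
      have h1 : k (q.2, q.1.2) = k q.1 := h.2
      simp only [hkd, if_pos k1, if_pos k3] at h1
      have h2 := Int.abs_sub_lt_one_of_floor_eq_floor h1
      rw [← sub_div, sub_sub_sub_cancel_right, abs_div, abs_of_pos (by positivity : 0 < r ^ 2),
        div_lt_one (by positivity)] at h2
      change |⟪θ q.1, p q.2 - p q.1.1⟫| ≤ _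
      rw [hθB _ k2.2, hpQ _ k1, hpQ _ k3]
      exact geo3 hr hd (mem_ball_iff_norm.1 k1) (mem_ball_iff_norm.1 k3) (hgeo _ k2.2).1 h2.le)
  refine compact_end hK (a := r * ρ) (b := d / 2) (by positivity) (by positivity) fun m hm => ?_
  have h1 := hmain (m / (2 * d * r)) (by positivity)
  obtain ⟨q, ⟨h2, h3⟩, ⟨k1, -, k2⟩, k3, k4, k5, k6, k7⟩ :=
    Measure.exists_mem_of_measure_ne_zero_of_ae h1 (ae_restrict_of_ae hae2)
  obtain ⟨g1, g2, g3⟩ := hgeo _ k4.2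
  obtain ⟨g4, -, g6⟩ := hgeo (q.2, q.1.2) ⟨mem_ball_iff_norm.2 (hX0B _ k6), k4.2.2⟩
  refine ⟨q.1.1, k1, q.1.2, k3, q.2, k5, ?_, by linarith, by linarith, ?_⟩
  · rw [hpQ _ k2, hpQ _ k7, ← smul_sub, sub_sub_sub_cancel_right, norm_smul, norm_inv,
      Real.norm_eq_abs, abs_of_pos hr, le_inv_mul_iff₀ hr] at h2
    exact h2
  · have h4 : 0 < ⟪e, q.1.2 - q.1.1⟫ := by linarith
    rw [hθB _ k4.2, hpQ _ k2, hpQ _ k7, ← smul_sub, sub_sub_sub_cancel_right,
      real_inner_smul_left, real_inner_smul_right, abs_mul, abs_mul, abs_of_pos (inv_pos.2 h4),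
      abs_of_pos (inv_pos.2 hr), inv_mul_lt_iff₀ h4, inv_mul_lt_iff₀ hr] at h3
    refine h3.trans_le ?_
    calc _ ≤ r * (2 * d * (m / (2 * d * r))) := by gcongr; linarith
      _ = m := by field_simp

theorem keyA {N : ℕ} (μ : Measure (EuclideanSpace ℝ (Fin N))) [IsProbabilityMeasure μ]
    {K : Set (EuclideanSpace ℝ (Fin N))} (hK : IsCompact K) (hμK : μ Kᶜ = 0) {s c C : ℝ}
    (hs : 1 < s) (hsc : (N : ℝ) < s + c)
    (hF : ∀ x r, 0 < r → μ (ball x r) ≤ ENNReal.ofReal (C * r ^ s))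
    {G : Set (EuclideanSpace ℝ (Fin N) × EuclideanSpace ℝ (Fin N))} (hG : MeasurableSet G)
    (hpos : (μ.prod μ) G ≠ 0)
    (hthin : ∀ x y, (x, y) ∈ G → ∀ δ : ℝ, 0 < δ →
      μ {z | (x, z) ∈ G ∧ ∃ t : ℝ, dist z (x + t • (y - x)) < δ} ≤ ENNReal.ofReal (C * δ ^ c)) :
    ∃ x ∈ K, ∃ y ∈ K, ∃ z ∈ K, x ≠ y ∧ y ≠ z ∧ x ≠ z ∧ inner ℝ (x - y) (z - y) = 0 :=
  keyA_gen μ hK hμK hs (by simpa using hsc) hF hG hpos hthin

end Pool.Agent.P.MP_bf60a1_an
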