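import Pool.Agent.P.MP_bf60a1_an.KeyDLS

/-!
One-dimensional Fourier analysis: from decay of the exponential integrals to stability of the
Gaussian incidence count.
-/

namespace Pool.Agent.P.MP_bf60a1_an

open MeasureTheory Complex Real
open scoped ENNReal

/-- Gaussian kernel of width `e`. -/
noncomputable def ker (e x : ℝ) : ℝ := √π / e * Real.exp (-(x ^ 2) / (4 * e ^ 2))

lemma ker_nonneg {e : ℝ} (he : 0 < e) (x : ℝ) : 0 ≤ ker e x := by unfold ker; positivity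

lemma ker_le {e : ℝ} (he : 0 < e) (x : ℝ) : ker e x ≤ 2 / e := by
  unfold ker
  have h1 : √π ≤ 2 := by
    rw [Real.sqrt_le_left (by norm_num)]; linarith [Real.pi_le_four]
  have h2 : Real.exp (-(x ^ 2) / (4 * e ^ 2)) ≤ 1 := by
    rw [Real.exp_le_one_iff, neg_div]
    exact neg_nonpos.2 (by positivity)
  calc _ ≤ 2 / e * 1 := by gcongr
    _ = _ := mul_one _

@[fun_prop]
lemma meas_ker (e : ℝ) : Measurable (ker e) := by unfold ker; fun_prop

lemma ker_ft {e : ℝ} (he : 0 < e) (x : ℝ) :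
    ∫ τ : ℝ, (Real.exp (-(e ^ 2) * τ ^ 2) : ℂ) * cexp (I * τ * x) = (ker e x : ℂ) := by
  have h := gauss_ft (V := ℝ) (b := e ^ 2) (by positivity) 1 x
  simp only [Real.norm_eq_abs, sq_abs, Module.finrank_self, Nat.cast_one, one_pow, one_mul,
    Complex.ofReal_one, mul_one] at h
  have h1 : (fun τ : ℝ => (Real.exp (-(e ^ 2) * τ ^ 2) : ℂ) * cexp (I * τ * x)) =
      fun τ : ℝ => (Real.exp (-(e ^ 2) * τ ^ 2) : ℂ) * cexp (I * (inner ℝ τ x : ℝ)) := by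
    funext τ
    congr 2
    simp only [RCLike.inner_apply, conj_trivial]
    push_cast
    ring
  rw [h1, h, ker, ← Real.sqrt_eq_rpow, Real.sqrt_div' _ (by positivity), Real.sqrt_sq he.le]

variable {Ω : Type*} [MeasurableSpace Ω]

/-- exponential integral -/
noncomputable def Bc (P : Measure Ω) (φ : Ω → ℝ) (c : Ω → ℂ) (τ : ℝ) : ℂ :=
  ∫ ω, c ω * cexp (I * τ * φ ω) ∂P

/-- weighted Gaussian count -/
noncomputable def Nc (P : Measure Ω) (φ : Ω → ℝ) (c : Ω → ℂ) (e : ℝ) : ℂ :=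
  ∫ ω, c ω * ker e (φ ω) ∂P

/-- Gaussian count -/
noncomputable def Nr (P : Measure Ω) (φ : Ω → ℝ) (e : ℝ) : ℝ :=
  ∫ ω, ker e (φ ω) ∂P

lemma Nc_one (P : Measure Ω) (φ : Ω → ℝ) (e : ℝ) : Nc P φ (fun _ => 1) e = Nr P φ e := by
  simp only [Nc, Nr, one_mul]
  exact integral_complex_ofReal

lemma Nr_nonneg (P : Measure Ω) (φ : Ω → ℝ) {e : ℝ} (he : 0 < e) : 0 ≤ Nr P φ e :=
  integral_nonneg fun _ => ker_nonneg he _

lemma int_ker (P : Measure Ω) [IsFiniteMeasure P] {φ : Ω → ℝ} (hφ : Measurable φ) {e : ℝ}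
    (he : 0 < e) : Integrable (fun ω => ker e (φ ω)) P :=
  Integrable.mono' (integrable_const (2 / e)) (Measurable.aestronglyMeasurable (by fun_prop))
    (Filter.Eventually.of_forall fun ω => by
      rw [Real.norm_eq_abs, abs_of_nonneg (ker_nonneg he _)]; exact ker_le he _)

lemma Nr_le (P : Measure Ω) [IsFiniteMeasure P] (hP : P.real Set.univ ≤ 1) {φ : Ω → ℝ}
    (hφ : Measurable φ) {e : ℝ} (he : 0 < e) : Nr P φ e ≤ 2 / e := by
  calc Nr P φ e ≤ ∫ _ω, 2 / e ∂P :=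
        integral_mono (int_ker P hφ he) (integrable_const _) fun ω => ker_le he _
    _ = P.real Set.univ * (2 / e) := by simp
    _ ≤ 1 * (2 / e) := by gcongr
    _ = _ := one_mul _

lemma Bc_le (P : Measure Ω) [IsFiniteMeasure P] (hP : P.real Set.univ ≤ 1) (φ : Ω → ℝ)
    {c : Ω → ℂ} (hc1 : ∀ ω, ‖c ω‖ ≤ 1) (τ : ℝ) : ‖Bc P φ c τ‖ ≤ 1 := by
  have := norm_integral_le_of_norm_le_const (μ := P) (C := 1)
    (f := fun ω => c ω * cexp (I * τ * φ ω)) (Filter.Eventually.of_forall fun ω => by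
      rw [norm_mul, norm_cexp_I_mul, mul_one]; exact hc1 ω)
  unfold Bc
  linarith

lemma int_gauss1 {e : ℝ} (he : 0 < e) : Integrable fun τ : ℝ => Real.exp (-(e ^ 2) * τ ^ 2) :=
  integrable_exp_neg_mul_sq (by positivity)

lemma Nc_eq (P : Measure Ω) [IsFiniteMeasure P] {φ : Ω → ℝ} (hφ : Measurable φ)
    {c : Ω → ℂ} (hc : Measurable c) (hc1 : ∀ ω, ‖c ω‖ ≤ 1) {e : ℝ} (he : 0 < e) :
    Nc P φ c e = ∫ τ : ℝ, (Real.exp (-(e ^ 2) * τ ^ 2) : ℂ) * Bc P φ c τ := by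
  set H : ℝ → Ω → ℂ := fun τ ω => c ω * ((Real.exp (-(e ^ 2) * τ ^ 2) : ℂ) * cexp (I * τ * φ ω))
    with hH
  have hHi : Integrable (Function.uncurry H) ((volume : Measure ℝ).prod P) := by
    refine Integrable.mono' (g := fun q => Real.exp (-(e ^ 2) * q.1 ^ 2) * 1)
      ((int_gauss1 he).mul_prod (integrable_const _))
      (Measurable.aestronglyMeasurable ?_) (Filter.Eventually.of_forall fun q => ?_)
    · unfold Function.uncurry
      simp only [hH]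
      fun_prop
    · simp only [Function.uncurry, hH, norm_mul, norm_cexp_I_mul, Complex.norm_real,
        Real.norm_eq_abs, abs_of_pos (Real.exp_pos _), mul_one]
      exact mul_le_of_le_one_left (Real.exp_pos _).le (hc1 _)
  have h3 := integral_integral_swap hHi
  have h4 : ∀ τ, ∫ ω, H τ ω ∂P = (Real.exp (-(e ^ 2) * τ ^ 2) : ℂ) * Bc P φ c τ := by
    intro τ
    rw [Bc, ← integral_const_mul]
    congr 1
    funext ω
    simp only [hH]
    ring
  have h5 : ∀ ω, ∫ τ, H τ ω = c ω * ker e (φ ω) := by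
    intro ω
    simp only [hH]
    rw [integral_const_mul, ker_ft he]
  simp only [h4, h5] at h3
  rw [h3, Nc]

lemma meas_Bc (P : Measure Ω) [SFinite P] {φ : Ω → ℝ} (hφ : Measurable φ)
    {c : Ω → ℂ} (hc : Measurable c) : Measurable (Bc P φ c) := by
  have : StronglyMeasurable (Function.uncurry
      fun (τ : ℝ) (ω : Ω) => c ω * cexp (I * τ * φ ω)) := by
    apply Measurable.stronglyMeasurable
    unfold Function.uncurry
    fun_prop
  exact (this.integral_prod_right (ν := P)).measurable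

/-- the constant `∫ (1+|τ|)^(-r)` -/
noncomputable def Jc (r : ℝ) : ℝ := ∫ τ : ℝ, (1 + ‖τ‖) ^ (-r)

lemma int_J {r : ℝ} (hr : 1 < r) : Integrable fun τ : ℝ => (1 + ‖τ‖) ^ (-r) :=
  integrable_one_add_norm (by simpa using hr)

lemma Jc_nonneg (r : ℝ) : 0 ≤ Jc r := integral_nonneg fun _ => by positivity

lemma exp_mul_le (x : ℝ) : Real.exp (-(x ^ 2)) * (1 + x) ≤ 2 := by
  have h1 : 1 + x ≤ 2 * Real.exp (x ^ 2) := by
    have := Real.add_one_le_exp (x ^ 2)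
    nlinarith [sq_nonneg (x - 1)]
  calc _ ≤ Real.exp (-(x ^ 2)) * (2 * Real.exp (x ^ 2)) := by gcongr
    _ = 2 := by rw [mul_left_comm, ← Real.exp_add]; simp

/-- one bootstrap step -/
lemma boot_step (P : Measure Ω) [IsFiniteMeasure P] {φ : Ω → ℝ} (hφ : Measurable φ)
    {η γ D : ℝ} (hη : 0 < η) (hγ0 : 0 ≤ γ) (hγ : γ ≤ 1) (hD : 0 ≤ D)
    (hB : ∀ τ, ‖Bc P φ (fun _ => 1) τ‖ ≤ D * (1 + ‖τ‖) ^ (-(1 + η) + γ)) {e : ℝ} (he : 0 < e)
    (he1 : e ≤ 1) : Nr P φ e ≤ 2 * D * Jc (1 + η) * e ^ (-γ) := by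
  have h1 : Nr P φ e ≤ ‖Nc P φ (fun _ => 1) e‖ := by
    rw [Nc_one, Complex.norm_real]; exact le_abs_self _
  refine h1.trans ?_
  rw [Nc_eq P hφ measurable_const (by simp) he]
  have h2 : 2 * D * Jc (1 + η) * e ^ (-γ) =
      ∫ τ : ℝ, (2 * D * e ^ (-γ)) * (1 + ‖τ‖) ^ (-(1 + η)) := by
    rw [integral_const_mul, Jc]; ring
  rw [h2]
  refine norm_integral_le_of_norm_le ((int_J (by linarith)).const_mul _)
    (Filter.Eventually.of_forall fun τ => ?_)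
  rw [norm_mul, Complex.norm_real, Real.norm_eq_abs, abs_of_pos (Real.exp_pos _)]
  have h3 : (1 + ‖τ‖) ^ γ ≤ e ^ (-γ) * (1 + e * ‖τ‖) := by
    have h4 : 1 + ‖τ‖ ≤ e⁻¹ * (1 + e * ‖τ‖) := by
      rw [mul_add, mul_one, ← mul_assoc, inv_mul_cancel₀ he.ne', one_mul]
      have : 1 ≤ e⁻¹ := (one_le_inv₀ he).2 he1
      linarith
    calc (1 + ‖τ‖) ^ γ ≤ (e⁻¹ * (1 + e * ‖τ‖)) ^ γ := by gcongr
      _ = e ^ (-γ) * (1 + e * ‖τ‖) ^ γ := by
          rw [Real.mul_rpow (by positivity) (by positivity), Real.inv_rpow he.le,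
            Real.rpow_neg he.le]
      _ ≤ e ^ (-γ) * (1 + e * ‖τ‖) ^ (1 : ℝ) := by
          apply mul_le_mul_of_nonneg_left _ (by positivity)
          exact Real.rpow_le_rpow_of_exponent_le (le_add_of_nonneg_right (by positivity)) hγ
      _ = _ := by rw [Real.rpow_one]
  have h5 := exp_mul_le (e * ‖τ‖)
  have h6 : -(e ^ 2) * τ ^ 2 = -((e * ‖τ‖) ^ 2) := by
    rw [mul_pow, Real.norm_eq_abs, sq_abs]; ring
  rw [h6]
  calc _ ≤ Real.exp (-((e * ‖τ‖) ^ 2)) * (D * (1 + ‖τ‖) ^ (-(1 + η) + γ)) := by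
        gcongr; exact hB τ
    _ = Real.exp (-((e * ‖τ‖) ^ 2)) * (1 + ‖τ‖) ^ γ * (D * (1 + ‖τ‖) ^ (-(1 + η))) := by
        rw [Real.rpow_add (by positivity)]; ring
    _ ≤ Real.exp (-((e * ‖τ‖) ^ 2)) * (e ^ (-γ) * (1 + e * ‖τ‖)) *
        (D * (1 + ‖τ‖) ^ (-(1 + η))) := by gcongr
    _ = (Real.exp (-((e * ‖τ‖) ^ 2)) * (1 + e * ‖τ‖)) *
        (e ^ (-γ) * (D * (1 + ‖τ‖) ^ (-(1 + η)))) := by ring
    _ ≤ 2 * (e ^ (-γ) * (D * (1 + ‖τ‖) ^ (-(1 + η)))) := by gcongr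
    _ = _ := by ring

lemma exp_diff_le {e e1 τ q : ℝ} (he : 0 < e) (hee : e ≤ e1) (hq0 : 0 ≤ q) (hq : q ≤ 2) :
    |Real.exp (-(e ^ 2) * τ ^ 2) - Real.exp (-(e1 ^ 2) * τ ^ 2)| ≤ (e1 * ‖τ‖) ^ q := by
  have he1 : 0 < e1 := he.trans_le hee
  have h1 : Real.exp (-(e1 ^ 2) * τ ^ 2) ≤ Real.exp (-(e ^ 2) * τ ^ 2) := by
    apply Real.exp_le_exp.2
    have : e ^ 2 ≤ e1 ^ 2 := by gcongr
    nlinarith [sq_nonneg τ]
  have h2 : Real.exp (-(e ^ 2) * τ ^ 2) ≤ 1 := by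
    rw [Real.exp_le_one_iff]; nlinarith [sq_nonneg τ, sq_nonneg e, sq_nonneg (e * τ)]
  have h3 := Real.add_one_le_exp (-(e1 ^ 2) * τ ^ 2)
  rw [abs_of_nonneg (by linarith)]
  rcases le_total (e1 * ‖τ‖) 1 with h | h
  · calc _ ≤ (e1 * ‖τ‖) ^ (2 : ℝ) := by
          rw [Real.rpow_two, mul_pow, Real.norm_eq_abs, sq_abs]; linarith
      _ ≤ _ := Real.rpow_le_rpow_of_exponent_ge' (by positivity) h hq0 hq
  · calc _ ≤ 1 := by linarith [Real.exp_pos (-(e1 ^ 2) * τ ^ 2)]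
      _ ≤ _ := Real.one_le_rpow h hq0

lemma diff_step (P : Measure Ω) [IsFiniteMeasure P] (hP : P.real Set.univ ≤ 1) {φ : Ω → ℝ}
    (hφ : Measurable φ) {c : Ω → ℂ} (hc : Measurable c) (hc1 : ∀ ω, ‖c ω‖ ≤ 1)
    {η D : ℝ} (hη : 0 < η) (hη1 : η ≤ 1) (hD : 0 ≤ D)
    (hB : ∀ τ, ‖Bc P φ c τ‖ ≤ D * (1 + ‖τ‖) ^ (-(1 + η))) {e e1 : ℝ} (he : 0 < e)
    (hee : e ≤ e1) : ‖Nc P φ c e - Nc P φ c e1‖ ≤ D * Jc (1 + η / 2) * e1 ^ (η / 2) := by
  have he1 : 0 < e1 := he.trans_le hee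
  have hi : ∀ {e : ℝ}, 0 < e →
      Integrable fun τ : ℝ => (Real.exp (-(e ^ 2) * τ ^ 2) : ℂ) * Bc P φ c τ := by
    intro e he
    have := meas_Bc P hφ hc
    refine Integrable.mono' (int_gauss1 he) (Measurable.aestronglyMeasurable (by fun_prop))
      (Filter.Eventually.of_forall fun τ => ?_)
    rw [norm_mul, Complex.norm_real, Real.norm_eq_abs, abs_of_pos (Real.exp_pos _)]
    exact mul_le_of_le_one_right (Real.exp_pos _).le (Bc_le P hP φ hc1 τ)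
  rw [Nc_eq P hφ hc hc1 he, Nc_eq P hφ hc hc1 he1, ← integral_sub (hi he) (hi he1)]
  have h2 : D * Jc (1 + η / 2) * e1 ^ (η / 2) =
      ∫ τ : ℝ, (D * e1 ^ (η / 2)) * (1 + ‖τ‖) ^ (-(1 + η / 2)) := by
    rw [integral_const_mul, Jc]; ring
  rw [h2]
  refine norm_integral_le_of_norm_le ((int_J (by linarith)).const_mul _)
    (Filter.Eventually.of_forall fun τ => ?_)
  rw [← sub_mul, norm_mul, ← Complex.ofReal_sub, Complex.norm_real, Real.norm_eq_abs]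
  calc _ ≤ (e1 * ‖τ‖) ^ (η / 2) * (D * (1 + ‖τ‖) ^ (-(1 + η))) :=
        mul_le_mul (exp_diff_le he hee (by linarith) (by linarith)) (hB τ) (norm_nonneg _)
          (by positivity)
    _ ≤ (e1 * (1 + ‖τ‖)) ^ (η / 2) * (D * (1 + ‖τ‖) ^ (-(1 + η))) := by
        gcongr; linarith
    _ = _ := by
        rw [Real.mul_rpow he1.le (by positivity),
          show -(1 + η / 2) = η / 2 + -(1 + η) by ring, Real.rpow_add (by positivity)]
        ring

/-- passage from the quadratic bound to a bound valid for all frequencies -/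
lemma unify {L0 T η γ M : ℝ} (hL0 : 0 ≤ L0) (hT : 1 ≤ T) (hη : 0 < η) (hγ0 : 0 ≤ γ) (hγ : γ ≤ 1)
    (hM : 1 ≤ M) {b : ℝ → ℝ} {N : ℝ → ℝ} (hb1 : ∀ τ, b τ ≤ 1)
    (hN : ∀ e, 0 < e → e ≤ 1 → N e ≤ M ^ 2 * e ^ (-(2 * γ)))
    (hb : ∀ τ, T ≤ |τ| → b τ ^ 2 ≤ L0 ^ 2 * |τ| ^ (-(2 + 2 * η)) * N (T / |τ|)) (τ : ℝ) :
    b τ ≤ (L0 + 1) * (2 * T) ^ (1 + η) * M * (1 + ‖τ‖) ^ (-(1 + η) + γ) := by
  rw [Real.norm_eq_abs]
  have hT0 : 0 < T := by linarith
  rcases le_total T |τ| with h | h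
  · have hτ : 0 < |τ| := by linarith
    have h1 := hN (T / |τ|) (by positivity) ((div_le_one hτ).2 h)
    have h2 : (T / |τ|) ^ (-(2 * γ)) ≤ |τ| ^ (2 * γ) := by
      rw [Real.rpow_neg (by positivity), ← Real.inv_rpow (by positivity), inv_div]
      gcongr
      exact div_le_self hτ.le hT
    have h3 : b τ ^ 2 ≤ (L0 * M * |τ| ^ (-(1 + η) + γ)) ^ 2 := by
      calc b τ ^ 2 ≤ L0 ^ 2 * |τ| ^ (-(2 + 2 * η)) * (M ^ 2 * |τ| ^ (2 * γ)) := by
            refine (hb τ h).trans (mul_le_mul_of_nonneg_left (h1.trans ?_) (by positivity))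
            gcongr
        _ = _ := by
            rw [mul_pow, mul_pow, ← Real.rpow_natCast (|τ| ^ _), ← Real.rpow_mul hτ.le,
              show (-(1 + η) + γ) * ((2 : ℕ) : ℝ) = -(2 + 2 * η) + 2 * γ by push_cast; ring,
              Real.rpow_add hτ]
            ring
    have h4 : b τ ≤ L0 * M * |τ| ^ (-(1 + η) + γ) :=
      (abs_le_of_sq_le_sq' h3 (by positivity)).2
    have h5 : |τ| ^ (-(1 + η) + γ) ≤ (2 * T) ^ (1 + η) * (1 + |τ|) ^ (-(1 + η) + γ) := by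
      have h6 : (1 + |τ|) / (2 * T) ≤ |τ| := by
        rw [div_le_iff₀ (by positivity)]; nlinarith
      calc |τ| ^ (-(1 + η) + γ) ≤ ((1 + |τ|) / (2 * T)) ^ (-(1 + η) + γ) :=
            Real.rpow_le_rpow_of_nonpos (by positivity) h6 (by linarith)
        _ = (2 * T) ^ (1 + η - γ) * (1 + |τ|) ^ (-(1 + η) + γ) := by
            rw [Real.div_rpow (by positivity) (by positivity),
              show 1 + η - γ = -(-(1 + η) + γ) by ring, Real.rpow_neg (x := 2 * T) (by positivity)]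
            field_simp
        _ ≤ _ := by
            apply mul_le_mul_of_nonneg_right _ (by positivity)
            exact Real.rpow_le_rpow_of_exponent_le (by linarith) (by linarith)
    calc b τ ≤ L0 * M * ((2 * T) ^ (1 + η) * (1 + |τ|) ^ (-(1 + η) + γ)) :=
          h4.trans (mul_le_mul_of_nonneg_left h5 (by positivity))
      _ ≤ (L0 + 1) * M * ((2 * T) ^ (1 + η) * (1 + |τ|) ^ (-(1 + η) + γ)) := by
          gcongr; linarith
      _ = _ := by ring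
  · have h5 : 1 ≤ (2 * T) ^ (1 + η) * (1 + |τ|) ^ (-(1 + η) + γ) := by
      calc (1 : ℝ) = (2 * T) ^ (1 + η) * (2 * T) ^ (-(1 + η)) := by
            rw [← Real.rpow_add (by positivity)]; simp
        _ ≤ (2 * T) ^ (1 + η) * (1 + |τ|) ^ (-(1 + η)) := by
            apply mul_le_mul_of_nonneg_left _ (by positivity)
            exact Real.rpow_le_rpow_of_nonpos (by positivity) (by linarith) (by linarith)
        _ ≤ _ := by
            apply mul_le_mul_of_nonneg_left _ (by positivity)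
            exact Real.rpow_le_rpow_of_exponent_le (le_add_of_nonneg_right (abs_nonneg _))
              (by linarith)
    have h6 : 1 ≤ (L0 + 1) * M := one_le_mul_of_one_le_of_one_le (by linarith) hM
    calc b τ ≤ 1 * 1 := by simpa using hb1 τ
      _ ≤ ((L0 + 1) * M) * ((2 * T) ^ (1 + η) * (1 + |τ|) ^ (-(1 + η) + γ)) :=
          mul_le_mul h6 h5 zero_le_one (by positivity)
      _ = _ := by ring

/-- Stability of the weighted Gaussian counts. -/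
theorem stable {L0 T η : ℝ} (hL0 : 0 ≤ L0) (hT : 1 ≤ T) (hη : 0 < η) (hη1 : η ≤ 1) :
    ∃ L : ℝ, 0 ≤ L ∧ ∀ (P : Measure Ω) [IsFiniteMeasure P], P.real Set.univ ≤ 1 →
      ∀ φ : Ω → ℝ, Measurable φ →
      (∀ τ, T ≤ |τ| → ‖Bc P φ (fun _ => 1) τ‖ ^ 2 ≤
        L0 ^ 2 * |τ| ^ (-(2 + 2 * η)) * Nr P φ (T / |τ|)) →
      ∀ c : Ω → ℂ, Measurable c → (∀ ω, ‖c ω‖ ≤ 1) →
      (∀ τ, T ≤ |τ| → ‖Bc P φ c τ‖ ^ 2 ≤ L0 ^ 2 * |τ| ^ (-(2 + 2 * η)) * Nr P φ (T / |τ|)) →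
      ∀ e e1 : ℝ, 0 < e → e ≤ e1 → ‖Nc P φ c e - Nc P φ c e1‖ ≤ L * e1 ^ (η / 2) := by
  set A : ℝ := (L0 + 1) * (2 * T) ^ (1 + η) with hA
  have hA0 : 0 ≤ A := by positivity
  set M : ℝ := 2 * A * Jc (1 + η) + 2 with hM
  have hJ := Jc_nonneg (1 + η)
  have hM2 : 2 ≤ M := by rw [hM]; nlinarith [mul_nonneg hA0 hJ]
  refine ⟨A * M * Jc (1 + η / 2), by have := Jc_nonneg (1 + η / 2); positivity, ?_⟩
  intro P _ hP φ hφ h1 c hc hc1 h2 e e1 he hee
  have key : ∀ j : ℕ, ∀ e, 0 < e → e ≤ 1 → Nr P φ e ≤ M ^ 2 * e ^ (-(2 * (1 / 2 : ℝ) ^ (j + 1))) := by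
    intro j
    induction j with
    | zero =>
      intro e he _
      refine (Nr_le P hP hφ he).trans ?_
      norm_num
      rw [Real.rpow_neg_one, div_eq_mul_inv]
      gcongr
      nlinarith
    | succ j ih =>
      intro e he he1
      have hg : (1 / 2 : ℝ) ^ (j + 1) ≤ 1 := pow_le_one₀ (by norm_num) (by norm_num)
      have h3 := unify hL0 hT hη (by positivity) hg (by linarith : 1 ≤ M)
        (fun τ => Bc_le P hP φ (c := fun _ => 1) (by simp) τ) ih h1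
      have h4 := boot_step P hφ hη (by positivity) hg (by positivity) h3 he he1
      rw [show 2 * (1 / 2 : ℝ) ^ (j + 1 + 1) = (1 / 2 : ℝ) ^ (j + 1) by ring]
      refine h4.trans (mul_le_mul_of_nonneg_right ?_ (by positivity))
      rw [← hA]
      nlinarith
  have key2 : ∀ e, 0 < e → e ≤ 1 → Nr P φ e ≤ M ^ 2 * e ^ (-(2 * (0 : ℝ))) := by
    intro e he he1
    have ht : Filter.Tendsto (fun j : ℕ => M ^ 2 * e ^ (-(2 * (1 / 2 : ℝ) ^ (j + 1))))
        Filter.atTop (nhds (M ^ 2 * e ^ (-(2 * (0 : ℝ))))) := by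
      apply Filter.Tendsto.const_mul
      apply Filter.Tendsto.rpow tendsto_const_nhds _ (Or.inl he.ne')
      apply Filter.Tendsto.neg
      apply Filter.Tendsto.const_mul
      exact (tendsto_pow_atTop_nhds_zero_of_lt_one (by norm_num) (by norm_num)).comp
        (Filter.tendsto_add_atTop_nat 1)
    exact ge_of_tendsto' ht fun j => key j e he he1
  have h3 := unify hL0 hT hη le_rfl zero_le_one (by linarith : 1 ≤ M)
    (fun τ => Bc_le P hP φ hc1 τ) key2 h2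
  simp only [add_zero] at h3
  exact diff_step P hP hφ hc hc1 hη hη1 (by positivity) h3 he hee

end Pool.Agent.P.MP_bf60a1_an
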