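import Pool.Agent.P.MP_bf60a1_an.KeyMom

/-!
The core incidence estimate: near-orthogonal far pairs persist at all scales.
-/

namespace Pool.Agent.P.MP_bf60a1_an

open MeasureTheory Complex Real Set
open scoped ENNReal RealInnerProductSpace unitInterval

lemma small_pow (A : ℝ) {q ε : ℝ} (hq : 0 < q) (hε : 0 < ε) :
    ∃ r : ℝ, 0 < r ∧ ∀ r', 0 < r' → r' ≤ r → A * r' ^ q ≤ ε := by
  have hA : 0 < |A| + 1 := by positivity
  refine ⟨(ε / (|A| + 1)) ^ (1 / q), by positivity, fun r' h0 h => ?_⟩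
  have h1 : r' ^ q ≤ ε / (|A| + 1) := by
    calc r' ^ q ≤ ((ε / (|A| + 1)) ^ (1 / q)) ^ q := by gcongr
      _ = _ := by rw [← Real.rpow_mul (by positivity), one_div_mul_cancel hq.ne', Real.rpow_one]
  calc A * r' ^ q ≤ (|A| + 1) * r' ^ q := by
        apply mul_le_mul_of_nonneg_right _ (by positivity); linarith [le_abs_self A]
    _ ≤ (|A| + 1) * (ε / (|A| + 1)) := by gcongr
    _ = ε := by field_simp

lemma ker_anti {e x y : ℝ} (he : 0 < e) (h : |x| ≤ |y|) : ker e y ≤ ker e x := by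
  unfold ker
  have : x ^ 2 ≤ y ^ 2 := sq_le_sq.2 h
  gcongr

lemma one_le_sqrt_pi : 1 ≤ √π := by
  rw [Real.one_le_sqrt]; linarith [Real.pi_gt_three]

lemma ker_tail {e m : ℝ} (he : 0 < e) (hm : 0 < m) : ker e m ≤ 8 / m ^ 2 * e := by
  unfold ker
  have h1 : √π ≤ 2 := by
    rw [Real.sqrt_le_left (by norm_num)]; linarith [Real.pi_le_four]
  have h2 : Real.exp (-(m ^ 2) / (4 * e ^ 2)) ≤ 4 * e ^ 2 / m ^ 2 := by
    rw [neg_div, Real.exp_neg, ← inv_div (m ^ 2)]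
    apply inv_anti₀ (by positivity)
    linarith [Real.add_one_le_exp (m ^ 2 / (4 * e ^ 2))]
  calc _ ≤ 2 / e * (4 * e ^ 2 / m ^ 2) := by gcongr
    _ = _ := by field_simp; ring

variable {E : Type*} [NormedAddCommGroup E] [InnerProductSpace ℝ E]
  [MeasurableSpace E] [BorelSpace E] [FiniteDimensional ℝ E]
variable {X Y : Type*} [MeasurableSpace X] [MeasurableSpace Y]

/-- the phase -/
noncomputable def ph (p : X → E) (θ : X × Y → E) (q : (I × (X × Y)) × (I × X)) : ℝ :=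
  ⟪uu p θ q.1, vv p q.2⟫

@[fun_prop]
lemma meas_ph {p : X → E} {θ : X × Y → E} (hp : Measurable p) (hθ : Measurable θ) :
    Measurable (ph p θ) := by
  unfold ph
  fun_prop

omit [MeasurableSpace E] [BorelSpace E] [FiniteDimensional ℝ E] [MeasurableSpace X]
  [MeasurableSpace Y] in
lemma ph_bounds (p : X → E) (θ : X × Y → E) (q : (I × (X × Y)) × (I × X)) :
    |⟪θ q.1.2, p q.2.2 - p q.1.2.1⟫| ≤ |ph p θ q| ∧
      |ph p θ q| ≤ 4 * |⟪θ q.1.2, p q.2.2 - p q.1.2.1⟫| := by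
  rw [ph, inner_uv, abs_mul]
  have h1 := q.1.1.2.1
  have h2 := q.1.1.2.2
  have h3 := q.2.1.2.1
  have h4 := q.2.1.2.2
  rw [abs_of_nonneg (by positivity : 0 ≤ (1 + (q.1.1 : ℝ)) * (1 + (q.2.1 : ℝ)))]
  constructor
  · exact le_mul_of_one_le_left (abs_nonneg _) (by nlinarith)
  · exact mul_le_mul_of_nonneg_right (by nlinarith) (abs_nonneg _)

/-- the lifted measure -/
noncomputable def PP (lam : Measure (X × Y)) (μ : Measure X) :
    Measure ((I × (X × Y)) × (I × X)) := (volume.prod lam).prod (volume.prod μ)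

instance (lam : Measure (X × Y)) [IsFiniteMeasure lam] (μ : Measure X) [IsFiniteMeasure μ] :
    IsFiniteMeasure (PP lam μ) := by unfold PP; infer_instance

lemma mp_PP (lam : Measure (X × Y)) [IsFiniteMeasure lam] (μ : Measure X) [IsFiniteMeasure μ] :
    MeasurePreserving (fun q : (I × (X × Y)) × (I × X) => (q.1.2, q.2.2)) (PP lam μ)
      (lam.prod μ) :=
  (measurePreserving_snd (μ := (volume : Measure I)) (ν := lam)).prod
    (measurePreserving_snd (μ := (volume : Measure I)) (ν := μ))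

lemma A_le_N (lam : Measure (X × Y)) [IsFiniteMeasure lam] (μ : Measure X) [IsFiniteMeasure μ]
    {p : X → E} (hpm : Measurable p) {θ : X × Y → E} (hθm : Measurable θ) {τ : ℝ} (hτ : τ ≠ 0) :
    ∫⁻ ω : I × (X × Y), (∫⁻ z,
      ENNReal.ofReal (Real.exp (-(|τ| / 8 * |⟪θ ω.2, p z - p ω.2.1⟫|) ^ 2)) ∂μ)
      ∂(volume.prod lam) ≤ ENNReal.ofReal (16 / |τ| * Nr (PP lam μ) (ph p θ) (16 / |τ|)) := by
  have he : 0 < 16 / |τ| := by positivity
  have hφ := meas_ph hpm hθm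
  rw [Nr, ← integral_const_mul, ofReal_integral_eq_lintegral_ofReal
    ((int_ker _ hφ he).const_mul _) (Filter.Eventually.of_forall fun q =>
      mul_nonneg he.le (ker_nonneg he _)), PP,
    lintegral_prod (fun q => ENNReal.ofReal (16 / |τ| * ker (16 / |τ|) (ph p θ q)))
      (Measurable.aemeasurable (by fun_prop))]
  refine lintegral_mono fun ω => ?_
  calc _ = ∫⁻ ζ : I × X, ENNReal.ofReal (Real.exp (-(|τ| / 8 * |⟪θ ω.2, p ζ.2 - p ω.2.1⟫|) ^ 2))
        ∂(volume.prod μ) :=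
        ((measurePreserving_snd (μ := (volume : Measure I)) (ν := μ)).lintegral_comp
          (f := fun z => ENNReal.ofReal (Real.exp (-(|τ| / 8 * |⟪θ ω.2, p z - p ω.2.1⟫|) ^ 2)))
          (by fun_prop)).symm
    _ ≤ _ := by
        refine lintegral_mono fun ζ => ENNReal.ofReal_le_ofReal ?_
        have h1 := (ph_bounds p θ (ω, ζ)).2
        have h2 : ker (16 / |τ|) (4 * |⟪θ ω.2, p ζ.2 - p ω.2.1⟫|) ≤
            ker (16 / |τ|) (ph p θ (ω, ζ)) :=
          ker_anti he (h1.trans (le_abs_self _))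
        refine le_trans ?_ (mul_le_mul_of_nonneg_left h2 he.le)
        have h3 : |τ| ≠ 0 := abs_ne_zero.2 hτ
        rw [ker, ← mul_assoc, mul_div_cancel₀ _ he.ne',
          show -(4 * |⟪θ ω.2, p ζ.2 - p ω.2.1⟫|) ^ 2 / (4 * (16 / |τ|) ^ 2) =
            -(|τ| / 8 * |⟪θ ω.2, p ζ.2 - p ω.2.1⟫|) ^ 2 by field_simp; ring]
        exact le_mul_of_one_le_left (Real.exp_pos _).le one_le_sqrt_pi

omit [MeasurableSpace E] [BorelSpace E] in
lemma finrank_lift : Module.finrank ℝ (WithLp 2 (E × ℝ)) = Module.finrank ℝ E + 1 := by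
  rw [(WithLp.linearEquiv 2 ℝ (E × ℝ)).finrank_eq, Module.finrank_prod, Module.finrank_self]

/-- the constant in the decay estimate -/
noncomputable def L2c (s c F K : ℝ) : ℝ :=
  Real.exp 108 * ((Cm 1 * 16 * (Cm c * K * 8 ^ c) * 16) * (Cm 1 * 16 * (Cm s * F * 8 ^ s)))

lemma L2c_nonneg (s c : ℝ) {F K : ℝ} (hF : 0 ≤ F) (hK : 0 ≤ K) : 0 ≤ L2c s c F K := by
  have := Cm_nonneg 1
  have := Cm_nonneg s
  have := Cm_nonneg c
  unfold L2c
  positivity

lemma decay (μ : Measure X) [IsProbabilityMeasure μ] (ν : Measure Y) [IsFiniteMeasure ν]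
    {G : Set (X × Y)} (hG : MeasurableSet G) {p : X → E} (hpm : Measurable p)
    (hp : ∀ x, ‖p x‖ ≤ 1) {θ : X × Y → E} (hθm : Measurable θ) (hθ : ∀ q, ‖θ q‖ ≤ 2)
    {e : E} (he : ‖e‖ = 1) (hθe : ∀ q, ⟪e, θ q⟫ = 1) {s c F K η : ℝ} (hF : 0 ≤ F) (hK : 0 ≤ K)
    (hFr : ∀ w ρ, 0 < ρ → μ {x | ‖p x - w‖ < ρ} ≤ ENNReal.ofReal (F * ρ ^ s))
    (hth : ∀ x w ρ, 0 < ρ →
      ν {y | (x, y) ∈ G ∧ ‖θ (x, y) - w‖ < ρ} ≤ ENNReal.ofReal (K * ρ ^ c))
    (hη : 2 * η ≤ s + c - Module.finrank ℝ E)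
    {a : I × (X × Y) → ℂ} (ha : Measurable a) (ha1 : ∀ ω, ‖a ω‖ ≤ 1)
    {b : I × X → ℂ} (hb : Measurable b) (hb1 : ∀ ζ, ‖b ζ‖ ≤ 1) {τ : ℝ} (hτ : 16 ≤ |τ|) :
    ‖Bc (PP ((μ.prod ν).restrict G) μ) (ph p θ) (fun q => a q.1 * b q.2) τ‖ ^ 2 ≤
      √(L2c s c F K) ^ 2 * |τ| ^ (-(2 + 2 * η)) *
        Nr (PP ((μ.prod ν).restrict G) μ) (ph p θ) (16 / |τ|) := by
  have hτ0 : 0 < |τ| := by linarith
  have hτ1 : τ ≠ 0 := abs_pos.1 hτ0
  have h1 := Cm_nonneg 1
  have h2 := Cm_nonneg s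
  have h3 := Cm_nonneg c
  set N := Nr (PP ((μ.prod ν).restrict G) μ) (ph p θ) (16 / |τ|) with hN
  have hN0 : 0 ≤ N := Nr_nonneg _ _ (by positivity)
  have hA := (bound_A μ ν hG hpm hp hθm hθ he hθe hK hth hτ1).trans
    (mul_le_mul_right (A_le_N _ μ hpm hθm hτ1) _)
  rw [← ENNReal.ofReal_mul (by positivity)] at hA
  have hB := bound_B μ hpm hp hF hFr hτ1
  have hD := dls (volume.prod ((μ.prod ν).restrict G)) (volume.prod μ) (meas_uu hpm hθm)
    (meas_vv hpm) ha ha1 hb hb1 (norm_uu hp hθ) (norm_vv hp)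
    (by rw [← sq_abs]; nlinarith) (by positivity) (by positivity) hA hB
  refine hD.trans ?_
  rw [Real.sq_sqrt (L2c_nonneg s c hF hK), finrank_lift, ← hN]
  have e1 : (τ ^ 2) ^ (((Module.finrank ℝ E + 1 : ℕ) : ℝ) / 2) =
      |τ| ^ ((Module.finrank ℝ E : ℝ) + 1) := by
    rw [← sq_abs, ← Real.rpow_two, ← Real.rpow_mul hτ0.le]
    congr 1; push_cast; ring
  have e2 : ∀ q : ℝ, (|τ| / 8) ^ (-q) = 8 ^ q * |τ| ^ (-q) := by
    intro q
    rw [Real.div_rpow hτ0.le (by norm_num), Real.rpow_neg (x := 8) (by norm_num)]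
    field_simp
  have e3 : 16 / |τ| = 16 * |τ| ^ (-1 : ℝ) := by rw [Real.rpow_neg_one, div_eq_mul_inv]
  have e4 : |τ| ^ ((Module.finrank ℝ E : ℝ) + 1) * |τ| ^ (-1 : ℝ) * |τ| ^ (-c) * |τ| ^ (-1 : ℝ) *
      |τ| ^ (-1 : ℝ) * |τ| ^ (-s) ≤ |τ| ^ (-(2 + 2 * η)) := by
    simp only [← Real.rpow_add hτ0]
    exact Real.rpow_le_rpow_of_exponent_le (by linarith) (by linarith)
  rw [e1, e2, e2, e2, e3, Real.rpow_one]
  calc _ = L2c s c F K * (|τ| ^ ((Module.finrank ℝ E : ℝ) + 1) * |τ| ^ (-1 : ℝ) * |τ| ^ (-c) *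
        |τ| ^ (-1 : ℝ) * |τ| ^ (-1 : ℝ) * |τ| ^ (-s)) * N := by
        unfold L2c; norm_num; ring
    _ ≤ _ := by
        have := L2c_nonneg s c hF hK
        gcongr

/-- unimodular weights whose Gaussian average is a near-diagonal cutoff -/
noncomputable def wt (p : X → E) (ρ : ℝ) (ξ : E) (q : (I × (X × Y)) × (I × X)) : ℂ :=
  cexp (Complex.I * (1 / ρ : ℝ) * (⟪ξ, p q.1.2.1⟫ : ℝ)) *
    cexp (Complex.I * (-1 / ρ : ℝ) * (⟪ξ, p q.2.2⟫ : ℝ))

/-- the near-diagonal cutoff -/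
noncomputable def chi (p : X → E) (ρ : ℝ) (q : (I × (X × Y)) × (I × X)) : ℝ :=
  Real.exp (-(‖p q.1.2.1 - p q.2.2‖ ^ 2) / (2 * ρ ^ 2))

omit [MeasurableSpace X] [MeasurableSpace Y] in
lemma wt_int (p : X → E) {ρ : ℝ} (hρ : 0 < ρ) (q : (I × (X × Y)) × (I × X)) :
    ∫ ξ, wt p ρ ξ q ∂(ProbabilityTheory.stdGaussian E) = chi p ρ q := by
  have h := ProbabilityTheory.charFun_stdGaussian ((1 / ρ) • (p q.1.2.1 - p q.2.2))
  rw [charFun_apply] at h
  have h1 : (fun ξ => wt p ρ ξ q) =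
      fun ξ => cexp ((⟪ξ, (1 / ρ) • (p q.1.2.1 - p q.2.2)⟫ : ℝ) * Complex.I) := by
    funext ξ
    rw [wt, ← Complex.exp_add, real_inner_smul_right, inner_sub_right]
    congr 1
    push_cast
    ring
  rw [h1, h, chi, norm_smul, Real.norm_eq_abs, abs_of_pos (by positivity)]
  push_cast
  congr 1
  have : (ρ : ℂ) ≠ 0 := by exact_mod_cast hρ.ne'
  field_simp

lemma chi_int (P : Measure ((I × (X × Y)) × (I × X))) [IsFiniteMeasure P] {p : X → E}
    (hpm : Measurable p) {φ : (I × (X × Y)) × (I × X) → ℝ} (hφ : Measurable φ) {ρ e : ℝ}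
    (hρ : 0 < ρ) (he : 0 < e) :
    Integrable (fun ξ => Nc P φ (wt p ρ ξ) e) (ProbabilityTheory.stdGaussian E) ∧
    ((∫ q, chi p ρ q * ker e (φ q) ∂P : ℝ) : ℂ) =
      ∫ ξ, Nc P φ (wt p ρ ξ) e ∂(ProbabilityTheory.stdGaussian E) := by
  set H : E → (I × (X × Y)) × (I × X) → ℂ := fun ξ q => wt p ρ ξ q * ker e (φ q) with hH
  have hHi : Integrable (Function.uncurry H) ((ProbabilityTheory.stdGaussian E).prod P) := by
    refine Integrable.mono' (integrable_const (2 / e))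
      (Measurable.aestronglyMeasurable ?_) (Filter.Eventually.of_forall fun q => ?_)
    · unfold Function.uncurry
      simp only [hH, wt]
      fun_prop
    · simp only [Function.uncurry, hH, wt, norm_mul, norm_cexp_I_mul, Complex.norm_real,
        Real.norm_eq_abs, abs_of_nonneg (ker_nonneg he _), one_mul]
      exact ker_le he _
  refine ⟨hHi.integral_prod_left, ?_⟩
  have h3 := integral_integral_swap hHi
  simp only [hH, integral_mul_const, wt_int p hρ] at h3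
  unfold Nc
  rw [h3, ← integral_complex_ofReal]
  simp only [Complex.ofReal_mul]


lemma chi_mass (lam : Measure (X × Y)) [IsFiniteMeasure lam] (hlam : lam univ ≤ 1)
    (μ : Measure X) [IsProbabilityMeasure μ] {p : X → E} (hpm : Measurable p) {F s : ℝ}
    (hF : 0 ≤ F) (hFr : ∀ w ρ, 0 < ρ → μ {x | ‖p x - w‖ < ρ} ≤ ENNReal.ofReal (F * ρ ^ s))
    {ρ : ℝ} (hρ : 0 < ρ) : ∫ q, chi p ρ q ∂(PP lam μ) ≤ Cm s * F * (2 * ρ) ^ s := by
  have h0 := Cm_nonneg s
  have hm : Measurable (chi (Y := Y) p ρ) := by unfold chi; fun_prop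
  rw [integral_eq_lintegral_of_nonneg_ae (f := chi p ρ)
    (Filter.Eventually.of_forall fun q => (Real.exp_pos _).le) hm.aestronglyMeasurable]
  apply ENNReal.toReal_le_of_le_ofReal (by positivity)
  have h1 := (mp_PP lam μ).lintegral_comp
    (f := fun r : (X × Y) × X => ENNReal.ofReal (Real.exp (-(‖p r.1.1 - p r.2‖ ^ 2) / (2 * ρ ^ 2))))
    (by fun_prop)
  refine (le_of_eq h1).trans ((lintegral_prod_le _).trans ?_)
  calc _ ≤ ∫⁻ _r, ENNReal.ofReal (Cm s * F * (2 * ρ) ^ s) ∂lam := by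
        refine lintegral_mono fun r => ?_
        have h2 := gauss_moment μ (f := fun z => ‖p z - p r.1‖) (by fun_prop)
          (fun _ => norm_nonneg _) hF (fun ρ hρ => hFr _ ρ hρ) (t := (2 * ρ)⁻¹) (by positivity)
        rw [Real.rpow_neg (by positivity), Real.inv_rpow (by positivity), inv_inv] at h2
        refine le_trans (lintegral_mono fun z => ENNReal.ofReal_le_ofReal ?_) h2
        apply Real.exp_le_exp.2
        rw [norm_sub_rev, mul_pow, neg_div, neg_le_neg_iff, inv_pow, inv_mul_eq_div]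
        apply div_le_div_of_nonneg_left (sq_nonneg _) (by positivity)
        nlinarith [sq_nonneg ρ]
    _ ≤ _ := by
        rw [lintegral_const]
        exact mul_le_of_le_one_right' hlam

lemma N_lower (lam : Measure (X × Y)) [IsFiniteMeasure lam]
    (μ : Measure X) [IsFiniteMeasure μ] {p : X → E} (hpm : Measurable p) {θ : X × Y → E}
    (hθm : Measurable θ) {c1 e0 : ℝ} (he0 : 0 < e0)
    (h : ENNReal.ofReal (c1 * e0) ≤ (lam.prod μ) {r | |⟪θ r.1, p r.2 - p r.1.1⟫| ≤ e0}) :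
    c1 * Real.exp (-4) ≤ Nr (PP lam μ) (ph p θ) e0 := by
  set S : Set ((X × Y) × X) := {r | |⟪θ r.1, p r.2 - p r.1.1⟫| ≤ e0} with hS
  have hSm : MeasurableSet S := measurableSet_le (by fun_prop) measurable_const
  have hT := (mp_PP lam μ).measurable hSm
  have h1 := (mp_PP lam μ).measure_preimage hSm.nullMeasurableSet
  have h2 : c1 * e0 ≤ (PP lam μ).real
      ((fun q : (I × (X × Y)) × (I × X) => (q.1.2, q.2.2)) ⁻¹' S) := by
    rw [Measure.real, h1]
    exact (ENNReal.ofReal_le_iff_le_toReal (measure_ne_top _ _)).1 h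
  calc c1 * Real.exp (-4) = (c1 * e0) * (1 / e0 * Real.exp (-4)) := by field_simp
    _ ≤ (PP lam μ).real ((fun q : (I × (X × Y)) × (I × X) => (q.1.2, q.2.2)) ⁻¹' S) *
        (1 / e0 * Real.exp (-4)) := by gcongr
    _ = ∫ q, ((fun q : (I × (X × Y)) × (I × X) => (q.1.2, q.2.2)) ⁻¹' S).indicator
        (fun _ => 1 / e0 * Real.exp (-4)) q ∂(PP lam μ) := by
        rw [integral_indicator_const _ hT, smul_eq_mul]
    _ ≤ _ := by
        refine integral_mono ((integrable_const _).indicator hT)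
          (int_ker _ (meas_ph hpm hθm) he0) fun q => ?_
        refine indicator_apply_le' (fun hq => ?_) (fun _ => ker_nonneg he0 _)
        have h3 : |⟪θ q.1.2, p q.2.2 - p q.1.2.1⟫| ≤ e0 := hq
        have h4 : |ph p θ q| ≤ |4 * e0| := by
          rw [abs_of_pos (by positivity : 0 < 4 * e0)]; linarith [(ph_bounds p θ q).2]
        refine le_trans ?_ (ker_anti he0 h4)
        rw [ker, show -(4 * e0) ^ 2 / (4 * e0 ^ 2) = -4 by field_simp]
        gcongr
        exact one_le_sqrt_pi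

lemma N_upper (lam : Measure (X × Y)) [IsFiniteMeasure lam] (hlam : lam univ ≤ 1)
    (μ : Measure X) [IsProbabilityMeasure μ] {p : X → E} (hpm : Measurable p) {θ : X × Y → E}
    (hθm : Measurable θ) {ρ m e : ℝ} (hρ : 0 < ρ) (hm : 0 < m) (he : 0 < e)
    (h : (lam.prod μ) {r | ρ ≤ ‖p r.1.1 - p r.2‖ ∧ |⟪θ r.1, p r.2 - p r.1.1⟫| < m} = 0) :
    Nr (PP lam μ) (ph p θ) e ≤
      8 / m ^ 2 * e + 2 * ∫ q, chi p ρ q * ker e (ph p θ q) ∂(PP lam μ) := by
  have hφ := meas_ph hpm hθm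
  have hP : (PP lam μ).real univ ≤ 1 := by
    apply ENNReal.toReal_le_of_le_ofReal zero_le_one
    rw [PP, ← univ_prod_univ, Measure.prod_prod, ← univ_prod_univ, Measure.prod_prod]
    simpa using hlam
  have hae : ∀ᵐ q ∂(PP lam μ),
      ¬ (ρ ≤ ‖p q.1.2.1 - p q.2.2‖ ∧ |⟪θ q.1.2, p q.2.2 - p q.1.2.1⟫| < m) :=
    (mp_PP lam μ).quasiMeasurePreserving.ae (p := fun r : (X × Y) × X =>
      ¬ (ρ ≤ ‖p r.1.1 - p r.2‖ ∧ |⟪θ r.1, p r.2 - p r.1.1⟫| < m))
      (measure_eq_zero_iff_ae_notMem.1 h)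
  have hcm : Measurable (chi (Y := Y) p ρ) := by unfold chi; fun_prop
  have hi : Integrable (fun q => chi p ρ q * ker e (ph p θ q)) (PP lam μ) := by
    refine (int_ker _ hφ he).bdd_mul (c := 1) hcm.aestronglyMeasurable
      (Filter.Eventually.of_forall fun q => ?_)
    rw [chi, Real.norm_eq_abs, abs_of_pos (Real.exp_pos _), Real.exp_le_one_iff, neg_div]
    exact neg_nonpos.2 (by positivity)
  calc Nr (PP lam μ) (ph p θ) e
      ≤ ∫ q, (8 / m ^ 2 * e + 2 * (chi p ρ q * ker e (ph p θ q))) ∂(PP lam μ) := by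
        refine integral_mono_ae (int_ker _ hφ he) ((integrable_const _).add (hi.const_mul _)) ?_
        filter_upwards [hae] with q hq
        have k0 := ker_nonneg he (ph p θ q)
        have c0 : 0 ≤ chi p ρ q := (Real.exp_pos _).le
        by_cases h1 : ρ ≤ ‖p q.1.2.1 - p q.2.2‖
        · have h2 : m ≤ |⟪θ q.1.2, p q.2.2 - p q.1.2.1⟫| := not_lt.1 fun h2 => hq ⟨h1, h2⟩
          have h3 : |m| ≤ |ph p θ q| := by
            rw [abs_of_pos hm]; exact h2.trans (ph_bounds p θ q).1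
          have := (ker_anti he h3).trans (ker_tail he hm)
          nlinarith [mul_nonneg c0 k0]
        · have h2 : 1 / 2 ≤ chi p ρ q := by
            have h3 : ‖p q.1.2.1 - p q.2.2‖ ^ 2 ≤ ρ ^ 2 := by
              have := (not_le.1 h1).le
              gcongr
            have h4 : -(1 / 2) ≤ -(‖p q.1.2.1 - p q.2.2‖ ^ 2) / (2 * ρ ^ 2) := by
              rw [neg_div, neg_le_neg_iff, div_le_iff₀ (by positivity)]; linarith
            have := Real.add_one_le_exp (-(‖p q.1.2.1 - p q.2.2‖ ^ 2) / (2 * ρ ^ 2))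
            unfold chi
            linarith
          have : 0 ≤ 8 / m ^ 2 * e := by positivity
          nlinarith
    _ = (PP lam μ).real univ * (8 / m ^ 2 * e) +
        2 * ∫ q, chi p ρ q * ker e (ph p θ q) ∂(PP lam μ) := by
        rw [integral_add (integrable_const _) (hi.const_mul _), integral_const_mul 2,
          integral_const, smul_eq_mul]
    _ ≤ _ := by
        have : 0 ≤ 8 / m ^ 2 * e := by positivity
        nlinarith

theorem core {s c F K c1 : ℝ} (hs : 1 < s) (hsc : (Module.finrank ℝ E : ℝ) < s + c)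
    (hF : 0 ≤ F) (hK : 0 ≤ K) (hc1 : 0 < c1) :
    ∃ e1 : ℝ, 0 < e1 ∧ ∃ ρ : ℝ, 0 < ρ ∧ ∀ (μ : Measure X) [IsProbabilityMeasure μ]
      (ν : Measure Y) [IsFiniteMeasure ν], ν univ ≤ 1 → ∀ G : Set (X × Y), MeasurableSet G →
      ∀ p : X → E, Measurable p → (∀ x, ‖p x‖ ≤ 1) → ∀ θ : X × Y → E, Measurable θ →
      (∀ q, ‖θ q‖ ≤ 2) → ∀ e : E, ‖e‖ = 1 → (∀ q, ⟪e, θ q⟫ = 1) →
      (∀ w ρ, 0 < ρ → μ {x | ‖p x - w‖ < ρ} ≤ ENNReal.ofReal (F * ρ ^ s)) →
      (∀ x w ρ, 0 < ρ → ν {y | (x, y) ∈ G ∧ ‖θ (x, y) - w‖ < ρ} ≤ ENNReal.ofReal (K * ρ ^ c)) →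
      ∀ e0 : ℝ, 0 < e0 → e0 ≤ e1 → ENNReal.ofReal (c1 * e0) ≤
        (((μ.prod ν).restrict G).prod μ) {r | |⟪θ r.1, p r.2 - p r.1.1⟫| ≤ e0} →
      ∀ m : ℝ, 0 < m → (((μ.prod ν).restrict G).prod μ)
        {r | ρ ≤ ‖p r.1.1 - p r.2‖ ∧ |⟪θ r.1, p r.2 - p r.1.1⟫| < m} ≠ 0 := by
  set η : ℝ := min 1 ((s + c - Module.finrank ℝ E) / 2) with hηd
  have hη0 : 0 < η := lt_min one_pos (by linarith)
  have hη1 : η ≤ 1 := min_le_left _ _
  have hη2 : 2 * η ≤ s + c - Module.finrank ℝ E := by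
    have := min_le_right 1 ((s + c - Module.finrank ℝ E) / 2); linarith
  obtain ⟨L, hL0, hL⟩ := stable (Ω := (I × (X × Y)) × (I × X)) (L0 := √(L2c s c F K)) (T := 16)
    (Real.sqrt_nonneg _) (by norm_num) hη0 hη1
  set c2 := c1 * Real.exp (-4) with hc2
  have hc20 : 0 < c2 := by positivity
  obtain ⟨e1, he1, h1⟩ := small_pow L (q := η / 2) (ε := c2 / 8) (by linarith) (by positivity)
  obtain ⟨r2, hr2, h2⟩ := small_pow (2 * (Cm s * F * 2 ^ s)) (q := s - 1) (ε := c2 / 8)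
    (by linarith) (by positivity)
  set ρ := min e1 r2 with hρd
  have hρ : 0 < ρ := lt_min he1 hr2
  refine ⟨e1, he1, ρ, hρ, ?_⟩
  intro μ _ ν _ hν G hG p hpm hp θ hθm hθ e he hθe hFr hth e0 he0 he01 hpos m hm hnull
  set lam := (μ.prod ν).restrict G with hlamd
  have hlam : lam univ ≤ 1 := by
    refine (Measure.restrict_le_self univ).trans ?_
    rw [← univ_prod_univ, Measure.prod_prod]
    simpa using hν
  have hP : (PP lam μ).real univ ≤ 1 := by
    apply ENNReal.toReal_le_of_le_ofReal zero_le_one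
    rw [PP, ← univ_prod_univ, Measure.prod_prod, ← univ_prod_univ, Measure.prod_prod]
    simpa using hlam
  have hφ := meas_ph hpm hθm
  have hd1 := fun τ (hτ : 16 ≤ |τ|) => decay μ ν hG hpm hp hθm hθ he hθe hF hK hFr hth hη2
    (a := fun _ => 1) measurable_const (by simp) (b := fun _ => 1) measurable_const (by simp) hτ
  simp only [mul_one] at hd1
  have hL' := hL (PP lam μ) hP (ph p θ) hφ hd1
  obtain ⟨r3, hr3, h3⟩ := small_pow (8 / m ^ 2) (q := 1) (ε := c2 / 8) one_pos (by positivity)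
  set ε := min (min e0 ρ) r3 with hεd
  have hε : 0 < ε := lt_min (lt_min he0 hρ) hr3
  have hεe : ε ≤ e0 := (min_le_left _ _).trans (min_le_left _ _)
  have hερ : ε ≤ ρ := (min_le_left _ _).trans (min_le_right _ _)
  have k1 := hL' (fun _ => 1) measurable_const (by simp) hd1 ε e0 hε hεe
  rw [Nc_one, Nc_one, ← Complex.ofReal_sub, Complex.norm_real, Real.norm_eq_abs] at k1
  have k2 := N_lower lam μ hpm hθm he0 hpos
  have k3 := N_upper lam hlam μ hpm hθm hρ hm hε hnull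
  have k4 := h3 ε hε (min_le_right _ _)
  rw [Real.rpow_one] at k4
  have k5 := h1 e0 he0 he01
  have k6 := h1 ρ hρ (min_le_left _ _)
  have k7 := h2 ρ hρ (min_le_right _ _)
  have k8 : ∀ ξ, ‖Nc (PP lam μ) (ph p θ) (wt p ρ ξ) ε - Nc (PP lam μ) (ph p θ) (wt p ρ ξ) ρ‖ ≤
      L * ρ ^ (η / 2) := by
    intro ξ
    refine hL' _ (by unfold wt; fun_prop) (fun q => ?_) (fun τ hτ => ?_) ε ρ hε hερ
    · rw [wt, norm_mul, norm_cexp_I_mul, norm_cexp_I_mul, mul_one]
    · exact decay μ ν hG hpm hp hθm hθ he hθe hF hK hFr hth hη2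
        (a := fun ω => cexp (Complex.I * (1 / ρ : ℝ) * (⟪ξ, p ω.2.1⟫ : ℝ))) (by fun_prop)
        (fun _ => (norm_cexp_I_mul _ _).le)
        (b := fun ζ => cexp (Complex.I * (-1 / ρ : ℝ) * (⟪ξ, p ζ.2⟫ : ℝ))) (by fun_prop)
        (fun _ => (norm_cexp_I_mul _ _).le) hτ
  obtain ⟨i1, j1⟩ := chi_int (PP lam μ) hpm hφ hρ hε
  obtain ⟨i2, j2⟩ := chi_int (PP lam μ) hpm hφ hρ hρ
  have k9 : |(∫ q, chi p ρ q * ker ε (ph p θ q) ∂(PP lam μ)) -
      ∫ q, chi p ρ q * ker ρ (ph p θ q) ∂(PP lam μ)| ≤ L * ρ ^ (η / 2) := by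
    rw [← Real.norm_eq_abs, ← Complex.norm_real, Complex.ofReal_sub, j1, j2, ← integral_sub i1 i2]
    have := norm_integral_le_of_norm_le_const (μ := ProbabilityTheory.stdGaussian E)
      (Filter.Eventually.of_forall k8)
    simpa using this
  have k10 : ∫ q, chi p ρ q * ker ρ (ph p θ q) ∂(PP lam μ) ≤
      2 * (Cm s * F * 2 ^ s) * ρ ^ (s - 1) := by
    have hcm : Measurable (chi (Y := Y) p ρ) := by unfold chi; fun_prop
    have hci : Integrable (chi (Y := Y) p ρ) (PP lam μ) := by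
      refine Integrable.mono' (integrable_const 1) hcm.aestronglyMeasurable
        (Filter.Eventually.of_forall fun q => ?_)
      rw [chi, Real.norm_eq_abs, abs_of_pos (Real.exp_pos _), Real.exp_le_one_iff, neg_div]
      exact neg_nonpos.2 (by positivity)
    calc _ ≤ ∫ q, chi p ρ q * (2 / ρ) ∂(PP lam μ) := by
          refine integral_mono_of_nonneg (Filter.Eventually.of_forall fun q =>
            mul_nonneg (Real.exp_pos _).le (ker_nonneg hρ _)) (hci.mul_const _)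
            (Filter.Eventually.of_forall fun q => ?_)
          exact mul_le_mul_of_nonneg_left (ker_le hρ _) (Real.exp_pos _).le
      _ ≤ Cm s * F * (2 * ρ) ^ s * (2 / ρ) := by
          rw [integral_mul_const]
          exact mul_le_mul_of_nonneg_right (chi_mass lam hlam μ hpm hF hFr hρ) (by positivity)
      _ = _ := by
          rw [Real.mul_rpow (by norm_num) hρ.le, Real.rpow_sub_one hρ.ne']
          field_simp
  have := abs_le.1 k1
  have := abs_le.1 k9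
  linarith

end Pool.Agent.P.MP_bf60a1_an
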