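import Pool.Agent.P.MP_bf60a1_an.KeyAn

/-!
Gaussian moments of measures with power bounds, and the two quadratic forms in the double large
sieve for point-hyperplane incidences.
-/

namespace Pool.Agent.P.MP_bf60a1_an

open MeasureTheory Complex Real Set
open scoped ENNReal RealInnerProductSpace unitInterval

/-- moment constant -/
noncomputable def Cm (q : ℝ) : ℝ := ∑' j : ℕ, Real.exp (-(j : ℝ)) * ((j : ℝ) + 1) ^ q

lemma summable_Cm (q : ℝ) : Summable fun j : ℕ => Real.exp (-(j : ℝ)) * ((j : ℝ) + 1) ^ q := by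
  have h := (Real.summable_pow_mul_exp_neg_nat_mul ⌈q⌉₊ zero_lt_one)
  have h2 := ((summable_nat_add_iff 1).2 h).mul_left (Real.exp 1)
  refine Summable.of_nonneg_of_le (fun j => by positivity) (fun j => ?_) h2
  have h3 : ((j : ℝ) + 1) ^ q ≤ ((j : ℝ) + 1) ^ ⌈q⌉₊ := by
    rw [← Real.rpow_natCast]
    exact Real.rpow_le_rpow_of_exponent_le (by linarith [(Nat.cast_nonneg j : (0 : ℝ) ≤ j)])
      (Nat.le_ceil q)
  have h4 : Real.exp (-(j : ℝ)) = Real.exp 1 * Real.exp (-1 * ((j + 1 : ℕ) : ℝ)) := by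
    rw [← Real.exp_add]; congr 1; push_cast; ring
  rw [h4]
  push_cast
  calc _ ≤ Real.exp 1 * Real.exp (-1 * ((j : ℝ) + 1)) * ((j : ℝ) + 1) ^ ⌈q⌉₊ := by gcongr
    _ = _ := by ring

lemma Cm_nonneg (q : ℝ) : 0 ≤ Cm q := tsum_nonneg fun j => by positivity

lemma gauss_moment {X : Type*} [MeasurableSpace X] (ν : Measure X) {f : X → ℝ}
    (hf : Measurable f) (hf0 : ∀ x, 0 ≤ f x) {K q : ℝ} (hK : 0 ≤ K)
    (h : ∀ ρ, 0 < ρ → ν {x | f x < ρ} ≤ ENNReal.ofReal (K * ρ ^ q)) {t : ℝ} (ht : 0 < t) :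
    ∫⁻ x, ENNReal.ofReal (Real.exp (-(t * f x) ^ 2)) ∂ν ≤
      ENNReal.ofReal (Cm q * K * t ^ (-q)) := by
  have hms : ∀ j : ℕ, MeasurableSet {x | f x < ((j : ℝ) + 1) / t} := fun j =>
    measurableSet_lt hf measurable_const
  calc _ ≤ ∫⁻ x, ∑' j : ℕ, {x | f x < ((j : ℝ) + 1) / t}.indicator
          (fun _ => ENNReal.ofReal (Real.exp (-(j : ℝ)))) x ∂ν := by
        refine lintegral_mono fun x => ?_
        refine le_trans ?_ (ENNReal.le_tsum ⌊t * f x⌋₊)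
        have h0 : 0 ≤ t * f x := mul_nonneg ht.le (hf0 x)
        rw [indicator_of_mem]
        · apply ENNReal.ofReal_le_ofReal
          apply Real.exp_le_exp.2
          have h1 := Nat.floor_le h0
          have h2 : ((⌊t * f x⌋₊ : ℕ) : ℝ) ≤ ((⌊t * f x⌋₊ : ℕ) : ℝ) ^ 2 := by
            exact_mod_cast Nat.le_self_pow two_ne_zero _
          have h3 : ((⌊t * f x⌋₊ : ℕ) : ℝ) ^ 2 ≤ (t * f x) ^ 2 := by gcongr
          linarith
        · change f x < _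
          rw [lt_div_iff₀ ht, mul_comm]
          exact Nat.lt_floor_add_one _
    _ = ∑' j : ℕ, ENNReal.ofReal (Real.exp (-(j : ℝ))) * ν {x | f x < ((j : ℝ) + 1) / t} := by
        rw [lintegral_tsum fun j => (measurable_const.indicator (hms j)).aemeasurable]
        congr 1
        funext j
        rw [lintegral_indicator_const (hms j)]
    _ ≤ ∑' j : ℕ, ENNReal.ofReal (Real.exp (-(j : ℝ)) * ((j : ℝ) + 1) ^ q * (K * t ^ (-q))) := by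
        refine ENNReal.tsum_le_tsum fun j => ?_
        refine (mul_le_mul_right (h _ (by positivity)) _).trans (le_of_eq ?_)
        rw [← ENNReal.ofReal_mul (by positivity), Real.div_rpow (by positivity) ht.le,
          Real.rpow_neg ht.le]
        congr 1
        field_simp
    _ = _ := by
        rw [← ENNReal.ofReal_tsum_of_nonneg (fun j => by positivity)
          ((summable_Cm q).mul_right _), tsum_mul_right, Cm, mul_assoc]

lemma unit_moment (s : I) {t : ℝ} (ht : 0 < t) :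
    ∫⁻ s' : I, ENNReal.ofReal (Real.exp (-(t * |(s : ℝ) - s'|) ^ 2)) ≤
      ENNReal.ofReal (Cm 1 * 2 * t ^ (-1 : ℝ)) := by
  refine gauss_moment (volume : Measure I) (f := fun s' : I => |(s : ℝ) - s'|) (by fun_prop)
    (fun _ => abs_nonneg _) (by norm_num) (fun ρ hρ => ?_) ht
  rw [unitInterval.volume_apply]
  calc _ ≤ volume (Ioo ((s : ℝ) - ρ) (s + ρ)) := by
        apply measure_mono
        rintro _ ⟨s', hs', rfl⟩
        have := abs_lt.1 (show |(s : ℝ) - s'| < ρ from hs')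
        constructor <;> linarith [this.1, this.2]
    _ = _ := by rw [Real.volume_Ioo, Real.rpow_one]; congr 1; ring

variable {E : Type*} [NormedAddCommGroup E] [InnerProductSpace ℝ E]
variable {X Y : Type*}

/-- lifted hyperplane -/
noncomputable def uu (p : X → E) (θ : X × Y → E) (ω : I × (X × Y)) : WithLp 2 (E × ℝ) :=
  WithLp.toLp 2 ((1 + (ω.1 : ℝ)) • θ ω.2, -((1 + (ω.1 : ℝ)) * ⟪θ ω.2, p ω.2.1⟫))

/-- lifted point -/
noncomputable def vv (p : X → E) (ζ : I × X) : WithLp 2 (E × ℝ) :=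
  WithLp.toLp 2 ((1 + (ζ.1 : ℝ)) • p ζ.2, 1 + (ζ.1 : ℝ))

lemma inner_uv (p : X → E) (θ : X × Y → E) (ω : I × (X × Y)) (ζ : I × X) :
    ⟪uu p θ ω, vv p ζ⟫ = (1 + (ω.1 : ℝ)) * (1 + (ζ.1 : ℝ)) * ⟪θ ω.2, p ζ.2 - p ω.2.1⟫ := by
  simp only [uu, vv, WithLp.prod_inner_apply, real_inner_smul_left, real_inner_smul_right,
    inner_sub_right, RCLike.inner_apply, conj_trivial]
  ring

lemma norm_uu {p : X → E} {θ : X × Y → E} (hp : ∀ x, ‖p x‖ ≤ 1) (hθ : ∀ q, ‖θ q‖ ≤ 2)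
    (ω : I × (X × Y)) : ‖uu p θ ω‖ ≤ 6 := by
  have h1 : |1 + (ω.1 : ℝ)| ≤ 2 := by
    rw [abs_of_nonneg (by linarith [ω.1.2.1])]; linarith [ω.1.2.2]
  have h2 : ‖(1 + (ω.1 : ℝ)) • θ ω.2‖ ≤ 2 * 2 := by
    rw [norm_smul]; exact mul_le_mul h1 (hθ _) (norm_nonneg _) (by norm_num)
  have h3 : ‖-((1 + (ω.1 : ℝ)) * ⟪θ ω.2, p ω.2.1⟫)‖ ≤ 2 * (2 * 1) := by
    rw [norm_neg, norm_mul]
    refine mul_le_mul h1 ((abs_real_inner_le_norm _ _).trans ?_) (norm_nonneg _) (by norm_num)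
    exact mul_le_mul (hθ _) (hp _) (norm_nonneg _) (by norm_num)
  apply abs_le_of_sq_le_sq' _ (by norm_num) |>.2
  rw [WithLp.prod_norm_sq_eq_of_L2]
  change ‖(1 + (ω.1 : ℝ)) • θ ω.2‖ ^ 2 + ‖-((1 + (ω.1 : ℝ)) * ⟪θ ω.2, p ω.2.1⟫)‖ ^ 2 ≤ _
  nlinarith [norm_nonneg ((1 + (ω.1 : ℝ)) • θ ω.2),
    norm_nonneg (-((1 + (ω.1 : ℝ)) * ⟪θ ω.2, p ω.2.1⟫))]

lemma norm_vv {p : X → E} (hp : ∀ x, ‖p x‖ ≤ 1) (ζ : I × X) : ‖vv p ζ‖ ≤ 6 := by
  have h1 : |1 + (ζ.1 : ℝ)| ≤ 2 := by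
    rw [abs_of_nonneg (by linarith [ζ.1.2.1])]; linarith [ζ.1.2.2]
  have h2 : ‖(1 + (ζ.1 : ℝ)) • p ζ.2‖ ≤ 2 * 1 := by
    rw [norm_smul]; exact mul_le_mul h1 (hp _) (norm_nonneg _) (by norm_num)
  apply abs_le_of_sq_le_sq' _ (by norm_num) |>.2
  rw [WithLp.prod_norm_sq_eq_of_L2]
  change ‖(1 + (ζ.1 : ℝ)) • p ζ.2‖ ^ 2 + ‖1 + (ζ.1 : ℝ)‖ ^ 2 ≤ _
  rw [Real.norm_eq_abs]
  nlinarith [norm_nonneg ((1 + (ζ.1 : ℝ)) • p ζ.2), abs_nonneg (1 + (ζ.1 : ℝ))]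

lemma smul_sub_le (a a' : ℝ) (ha : 1 ≤ a) (w w' : E) :
    ‖w - w'‖ ≤ ‖a • w - a' • w'‖ + |a - a'| * ‖w'‖ := by
  calc ‖w - w'‖ ≤ ‖a • (w - w')‖ := by
        rw [norm_smul, Real.norm_eq_abs, abs_of_nonneg (by linarith)]
        exact le_mul_of_one_le_left (norm_nonneg _) ha
    _ = ‖(a • w - a' • w') - (a - a') • w'‖ := by congr 1; module
    _ ≤ ‖a • w - a' • w'‖ + ‖(a - a') • w'‖ := norm_sub_le _ _
    _ = _ := by rw [norm_smul, Real.norm_eq_abs]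

lemma vv_sep {p : X → E} (hp : ∀ x, ‖p x‖ ≤ 1) (ζ ζ' : I × X) :
    |(ζ.1 : ℝ) - ζ'.1| ^ 2 + ‖p ζ'.2 - p ζ.2‖ ^ 2 ≤ 14 * ‖vv p ζ - vv p ζ'‖ ^ 2 := by
  rw [WithLp.prod_norm_sq_eq_of_L2, norm_sub_rev]
  change _ ≤ 14 * (‖(1 + (ζ.1 : ℝ)) • p ζ.2 - (1 + (ζ'.1 : ℝ)) • p ζ'.2‖ ^ 2 +
    ‖(1 + (ζ.1 : ℝ)) - (1 + (ζ'.1 : ℝ))‖ ^ 2)
  have h := smul_sub_le (1 + (ζ.1 : ℝ)) (1 + (ζ'.1 : ℝ)) (by linarith [ζ.1.2.1]) (p ζ.2) (p ζ'.2)
  rw [Real.norm_eq_abs]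
  rw [add_sub_add_left_eq_sub] at h ⊢
  set a := |(ζ.1 : ℝ) - ζ'.1|
  set D := ‖(1 + (ζ.1 : ℝ)) • p ζ.2 - (1 + (ζ'.1 : ℝ)) • p ζ'.2‖
  have ha : 0 ≤ a := abs_nonneg _
  have hD : 0 ≤ D := norm_nonneg _
  have h2 : ‖p ζ.2 - p ζ'.2‖ ≤ D + a := by nlinarith [hp ζ'.2]
  have h3 : ‖p ζ.2 - p ζ'.2‖ ^ 2 ≤ (D + a) ^ 2 := by gcongr
  nlinarith [sq_nonneg (D - a)]

lemma uu_sep {p : X → E} {θ : X × Y → E} (hp : ∀ x, ‖p x‖ ≤ 1) (hθ : ∀ q, ‖θ q‖ ≤ 2)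
    {e : E} (he : ‖e‖ = 1) (hθe : ∀ q, ⟪e, θ q⟫ = 1) (ω ω' : I × (X × Y)) :
    |(ω.1 : ℝ) - ω'.1| ^ 2 + |⟪θ ω.2, p ω'.2.1 - p ω.2.1⟫| ^ 2 + ‖θ ω'.2 - θ ω.2‖ ^ 2 ≤
      14 * ‖uu p θ ω - uu p θ ω'‖ ^ 2 := by
  set D := ‖uu p θ ω - uu p θ ω'‖ with hD
  have hD0 : 0 ≤ D := norm_nonneg _
  set a := 1 + (ω.1 : ℝ) with ha
  set a' := 1 + (ω'.1 : ℝ) with ha'
  have ha1 : 1 ≤ a := by linarith [ω.1.2.1]
  have h1 : ‖a • θ ω.2 - a' • θ ω'.2‖ ≤ D := WithLp.norm_fst_le _ (uu p θ ω - uu p θ ω')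
  have h2 : ‖-(a * ⟪θ ω.2, p ω.2.1⟫) - -(a' * ⟪θ ω'.2, p ω'.2.1⟫)‖ ≤ D :=
    WithLp.norm_snd_le _ (uu p θ ω - uu p θ ω')
  have h3 : |a - a'| ≤ D := by
    have : a - a' = ⟪e, a • θ ω.2 - a' • θ ω'.2⟫ := by
      rw [inner_sub_right, real_inner_smul_right, real_inner_smul_right, hθe, hθe]; ring
    rw [this]
    refine (abs_real_inner_le_norm _ _).trans ?_
    rw [he, one_mul]; exact h1
  have h4 : ‖θ ω'.2 - θ ω.2‖ ≤ 3 * D := by
    have := smul_sub_le a a' ha1 (θ ω.2) (θ ω'.2)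
    rw [norm_sub_rev]
    nlinarith [hθ ω'.2, abs_nonneg (a - a'), norm_nonneg (θ ω'.2)]
  have h5 : |⟪θ ω.2, p ω'.2.1 - p ω.2.1⟫| ≤ 2 * D := by
    have e1 : a * ⟪θ ω.2, p ω'.2.1 - p ω.2.1⟫ = ⟪a • θ ω.2 - a' • θ ω'.2, p ω'.2.1⟫ +
        (-(a * ⟪θ ω.2, p ω.2.1⟫) - -(a' * ⟪θ ω'.2, p ω'.2.1⟫)) := by
      rw [inner_sub_left, inner_sub_right, real_inner_smul_left, real_inner_smul_left]; ring
    have e2 : |⟪a • θ ω.2 - a' • θ ω'.2, p ω'.2.1⟫| ≤ D := by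
      refine (abs_real_inner_le_norm _ _).trans ?_
      nlinarith [hp ω'.2.1, norm_nonneg (p ω'.2.1), norm_nonneg (a • θ ω.2 - a' • θ ω'.2)]
    rw [Real.norm_eq_abs] at h2
    calc _ ≤ |a * ⟪θ ω.2, p ω'.2.1 - p ω.2.1⟫| := by
          rw [abs_mul, abs_of_nonneg (by linarith : 0 ≤ a)]
          exact le_mul_of_one_le_left (abs_nonneg _) ha1
      _ ≤ _ := by rw [e1]; exact (abs_add_le _ _).trans (by linarith)
  have h6 : |(ω.1 : ℝ) - ω'.1| ≤ D := by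
    rwa [ha, ha', add_sub_add_left_eq_sub] at h3
  have k1 : |(ω.1 : ℝ) - ω'.1| ^ 2 ≤ D ^ 2 := by gcongr
  have k2 : |⟪θ ω.2, p ω'.2.1 - p ω.2.1⟫| ^ 2 ≤ (2 * D) ^ 2 := by gcongr
  have k3 : ‖θ ω'.2 - θ ω.2‖ ^ 2 ≤ (3 * D) ^ 2 := by gcongr
  nlinarith

lemma exp_split {τ D S : ℝ} (h : S ≤ 14 * D) (hS : 0 ≤ S) :
    Real.exp (-(τ ^ 2 * D) / 4) ≤ Real.exp (-((|τ| / 8) ^ 2 * S)) := by
  apply Real.exp_le_exp.2
  rw [div_pow, sq_abs]
  have := mul_le_mul_of_nonneg_left h (sq_nonneg τ)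
  have h2 := mul_nonneg (sq_nonneg τ) hS
  linarith

variable [MeasurableSpace E] [BorelSpace E] [FiniteDimensional ℝ E] [MeasurableSpace X]
  [MeasurableSpace Y]

@[fun_prop]
lemma meas_uu {p : X → E} {θ : X × Y → E} (hp : Measurable p) (hθ : Measurable θ) :
    Measurable (uu p θ) := by
  unfold uu
  fun_prop

@[fun_prop]
lemma meas_vv {p : X → E} (hp : Measurable p) : Measurable (vv p) := by
  unfold vv
  fun_prop

omit [FiniteDimensional ℝ E] in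
lemma bound_B (μ : Measure X) [IsProbabilityMeasure μ] {p : X → E} (hpm : Measurable p)
    (hp : ∀ x, ‖p x‖ ≤ 1) {F s : ℝ} (hF : 0 ≤ F)
    (hFr : ∀ w ρ, 0 < ρ → μ {x | ‖p x - w‖ < ρ} ≤ ENNReal.ofReal (F * ρ ^ s))
    {τ : ℝ} (hτ : τ ≠ 0) :
    ∫⁻ q : (I × X) × (I × X), ENNReal.ofReal (Real.exp (-(τ ^ 2 * ‖vv p q.1 - vv p q.2‖ ^ 2) / 4))
      ∂((volume.prod μ).prod (volume.prod μ)) ≤
      ENNReal.ofReal ((Cm 1 * 2 * (|τ| / 8) ^ (-1 : ℝ)) * (Cm s * F * (|τ| / 8) ^ (-s))) := by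
  have ht : 0 < |τ| / 8 := by positivity
  refine (lintegral_prod_le _).trans ?_
  calc _ ≤ ∫⁻ _ζ : I × X, ENNReal.ofReal
        ((Cm 1 * 2 * (|τ| / 8) ^ (-1 : ℝ)) * (Cm s * F * (|τ| / 8) ^ (-s))) ∂(volume.prod μ) := by
        refine lintegral_mono fun ζ => ?_
        calc _ ≤ ∫⁻ ζ' : I × X, ENNReal.ofReal (Real.exp (-(|τ| / 8 * |(ζ.1 : ℝ) - ζ'.1|) ^ 2)) *
              ENNReal.ofReal (Real.exp (-(|τ| / 8 * ‖p ζ'.2 - p ζ.2‖) ^ 2)) ∂(volume.prod μ) := by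
              refine lintegral_mono fun ζ' => ?_
              rw [← ENNReal.ofReal_mul (Real.exp_pos _).le, ← Real.exp_add]
              apply ENNReal.ofReal_le_ofReal
              refine (exp_split (vv_sep hp ζ ζ') (by positivity)).trans (le_of_eq ?_)
              congr 1; ring
          _ ≤ _ := by
              rw [lintegral_prod_mul
                (f := fun s' : I => ENNReal.ofReal (Real.exp (-(|τ| / 8 * |(ζ.1 : ℝ) - s'|) ^ 2)))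
                (g := fun z : X => ENNReal.ofReal (Real.exp (-(|τ| / 8 * ‖p z - p ζ.2‖) ^ 2)))
                (Measurable.aemeasurable (by fun_prop)) (Measurable.aemeasurable (by fun_prop)),
                ENNReal.ofReal_mul (by have := Cm_nonneg 1; positivity)]
              exact mul_le_mul' (unit_moment _ ht)
                (gauss_moment μ (f := fun z => ‖p z - p ζ.2‖) (by fun_prop)
                  (fun _ => norm_nonneg _) hF (fun ρ hρ => hFr _ ρ hρ) ht)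
    _ = _ := by simp

lemma bound_A (μ : Measure X) [IsProbabilityMeasure μ] (ν : Measure Y) [IsFiniteMeasure ν]
    {G : Set (X × Y)} (hG : MeasurableSet G) {p : X → E} (hpm : Measurable p)
    (hp : ∀ x, ‖p x‖ ≤ 1) {θ : X × Y → E} (hθm : Measurable θ) (hθ : ∀ q, ‖θ q‖ ≤ 2)
    {e : E} (he : ‖e‖ = 1) (hθe : ∀ q, ⟪e, θ q⟫ = 1) {K c : ℝ} (hK : 0 ≤ K)
    (hth : ∀ x w ρ, 0 < ρ →
      ν {y | (x, y) ∈ G ∧ ‖θ (x, y) - w‖ < ρ} ≤ ENNReal.ofReal (K * ρ ^ c))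
    {τ : ℝ} (hτ : τ ≠ 0) :
    ∫⁻ q : (I × (X × Y)) × (I × (X × Y)),
      ENNReal.ofReal (Real.exp (-(τ ^ 2 * ‖uu p θ q.1 - uu p θ q.2‖ ^ 2) / 4))
      ∂((volume.prod ((μ.prod ν).restrict G)).prod (volume.prod ((μ.prod ν).restrict G))) ≤
      ENNReal.ofReal ((Cm 1 * 2 * (|τ| / 8) ^ (-1 : ℝ)) * (Cm c * K * (|τ| / 8) ^ (-c))) *
        ∫⁻ ω : I × (X × Y), (∫⁻ z,
          ENNReal.ofReal (Real.exp (-(|τ| / 8 * |⟪θ ω.2, p z - p ω.2.1⟫|) ^ 2)) ∂μ)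
          ∂(volume.prod ((μ.prod ν).restrict G)) := by
  have ht : 0 < |τ| / 8 := by positivity
  refine (lintegral_prod_le _).trans ?_
  rw [← lintegral_const_mul' _ _ ENNReal.ofReal_ne_top]
  refine lintegral_mono fun ω => ?_
  calc _ ≤ ∫⁻ ω' : I × (X × Y),
        ENNReal.ofReal (Real.exp (-(|τ| / 8 * |(ω.1 : ℝ) - ω'.1|) ^ 2)) *
        (ENNReal.ofReal (Real.exp (-(|τ| / 8 * |⟪θ ω.2, p ω'.2.1 - p ω.2.1⟫|) ^ 2)) *
        ENNReal.ofReal (Real.exp (-(|τ| / 8 * ‖θ ω'.2 - θ ω.2‖) ^ 2)))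
        ∂(volume.prod ((μ.prod ν).restrict G)) := by
        refine lintegral_mono fun ω' => ?_
        rw [← ENNReal.ofReal_mul (Real.exp_pos _).le, ← ENNReal.ofReal_mul (Real.exp_pos _).le,
          ← Real.exp_add, ← Real.exp_add]
        apply ENNReal.ofReal_le_ofReal
        refine (exp_split (uu_sep hp hθ he hθe ω ω') (by positivity)).trans (le_of_eq ?_)
        congr 1; ring
    _ ≤ _ := by
        rw [lintegral_prod_mul
          (f := fun s' : I => ENNReal.ofReal (Real.exp (-(|τ| / 8 * |(ω.1 : ℝ) - s'|) ^ 2)))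
          (g := fun q : X × Y =>
            ENNReal.ofReal (Real.exp (-(|τ| / 8 * |⟪θ ω.2, p q.1 - p ω.2.1⟫|) ^ 2)) *
            ENNReal.ofReal (Real.exp (-(|τ| / 8 * ‖θ q - θ ω.2‖) ^ 2)))
          (Measurable.aemeasurable (by fun_prop)) (Measurable.aemeasurable (by fun_prop)),
          ENNReal.ofReal_mul (by have := Cm_nonneg 1; positivity), mul_assoc]
        refine mul_le_mul' (unit_moment _ ht) ?_
        rw [← lintegral_indicator hG, ← lintegral_const_mul' _ _ ENNReal.ofReal_ne_top]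
        refine (lintegral_prod_le _).trans (lintegral_mono fun x => ?_)
        have hGx : MeasurableSet (Prod.mk x ⁻¹' G) := measurable_prodMk_left hG
        have h1 := gauss_moment (ν.restrict (Prod.mk x ⁻¹' G))
          (f := fun y => ‖θ (x, y) - θ ω.2‖) (by fun_prop) (fun _ => norm_nonneg _) hK
          (q := c) (fun ρ hρ => by
            rw [Measure.restrict_apply' hGx]
            refine le_trans (measure_mono ?_) (hth x (θ ω.2) ρ hρ)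
            intro y hy
            exact ⟨hy.2, hy.1⟩) ht
        rw [mul_comm]
        refine le_trans (le_of_eq ?_) (mul_le_mul_right h1 _)
        rw [← lintegral_indicator hGx, ← lintegral_const_mul' _ _ ENNReal.ofReal_ne_top]
        congr 1
        funext y
        by_cases hy : (x, y) ∈ G
        · rw [indicator_of_mem hy, indicator_of_mem (show y ∈ Prod.mk x ⁻¹' G from hy)]
        · rw [indicator_of_notMem hy, indicator_of_notMem (show y ∉ Prod.mk x ⁻¹' G from hy),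
            mul_zero]

end Pool.Agent.P.MP_bf60a1_an
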