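import Pool.Agent.P.MP_bf60a1_an.KeyCore

/-!
Selection of a good ball, the pigeonhole energy bound, and elementary geometry.
-/

namespace Pool.Agent.P.MP_bf60a1_an

open MeasureTheory Real Set Metric
open scoped ENNReal RealInnerProductSpace

lemma energy_lower {X Y : Type*} [MeasurableSpace X] [MeasurableSpace Y] (μ : Measure X)
    [IsProbabilityMeasure μ] (ν : Measure Y) [IsProbabilityMeasure ν] {G : Set (X × Y)}
    (hG : MeasurableSet G) {k : X × Y → ℤ} (hk : Measurable k) (T : Finset ℤ)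
    (hT : ∀ q ∈ G, k q ∈ T) {M c0 : ℝ} (hM : 0 < M) (hTM : (T.card : ℝ) ≤ M) (hc0 : 0 ≤ c0)
    (hc : ENNReal.ofReal c0 ≤ (μ.prod ν) G) :
    ENNReal.ofReal (c0 ^ 2 / M) ≤ (((μ.prod ν).restrict G).prod μ)
      {r | (r.2, r.1.2) ∈ G ∧ k (r.2, r.1.2) = k r.1} := by
  set S : ℤ → Set (X × Y) := fun t => G ∩ k ⁻¹' {t} with hS
  have hSm : ∀ t, MeasurableSet (S t) := fun t => hG.inter (hk (measurableSet_singleton t))
  set g : ℤ → Y → ℝ≥0∞ := fun t y => μ ((fun x => (x, y)) ⁻¹' S t) with hg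
  have hgm : ∀ t, Measurable (g t) := fun t => measurable_measure_prodMk_right (hSm t)
  have hsw : Measurable fun r : (X × Y) × X => (r.2, r.1.2) := by fun_prop
  have hW : MeasurableSet {r : (X × Y) × X | (r.2, r.1.2) ∈ G ∧ k (r.2, r.1.2) = k r.1} :=
    (hsw hG).inter (measurableSet_eq_fun (hk.comp hsw) (hk.comp measurable_fst))
  have hdisj : (T : Set ℤ).PairwiseDisjoint S := by
    intro a _ b _ hab
    refine Set.disjoint_left.2 fun q h1 h2 => hab ?_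
    exact (show k q = a from h1.2).symm.trans h2.2
  have hU : G = ⋃ t ∈ T, S t := by
    ext q
    simp only [hS, mem_iUnion, mem_inter_iff, mem_preimage, mem_singleton_iff]
    exact ⟨fun h => ⟨k q, hT q h, h, rfl⟩, fun ⟨_, _, h, _⟩ => h⟩
  have h1 : (μ.prod ν) G = ∑ t ∈ T, ∫⁻ y, g t y ∂ν := by
    conv_lhs => rw [hU]
    rw [measure_biUnion_finset hdisj fun t _ => hSm t]
    exact Finset.sum_congr rfl fun t _ => Measure.prod_apply_symm (hSm t)
  have h2 : ∑ t ∈ T, ∫⁻ y, g t y ^ 2 ∂ν = (((μ.prod ν).restrict G).prod μ)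
      {r | (r.2, r.1.2) ∈ G ∧ k (r.2, r.1.2) = k r.1} := by
    rw [Measure.prod_apply hW]
    conv_rhs => enter [1]; rw [hU]
    rw [lintegral_biUnion_finset hdisj fun t _ => hSm t]
    refine Finset.sum_congr rfl fun t _ => ?_
    have h3 : ∫⁻ q in S t, μ (Prod.mk q ⁻¹'
        {r : (X × Y) × X | (r.2, r.1.2) ∈ G ∧ k (r.2, r.1.2) = k r.1}) ∂(μ.prod ν) =
        ∫⁻ q in S t, g t q.2 ∂(μ.prod ν) := by
      refine setLIntegral_congr_fun (hSm t) fun q hq => ?_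
      simp only [hg]
      congr 1
      ext x
      have : k q = t := hq.2
      simp [hS, this]
    rw [h3, ← lintegral_indicator (hSm t), lintegral_prod_symm ((S t).indicator fun q => g t q.2)
      (((hgm t).comp measurable_snd).indicator (hSm t)).aemeasurable]
    congr 1
    funext y
    have h4 : (fun x => (S t).indicator (fun q : X × Y => g t q.2) (x, y)) =
        ((fun x => (x, y)) ⁻¹' S t).indicator fun _ => g t y := by
      funext x
      by_cases hx : (x, y) ∈ S t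
      · rw [indicator_of_mem hx, indicator_of_mem (show x ∈ (fun x => (x, y)) ⁻¹' S t from hx)]
      · rw [indicator_of_notMem hx,
          indicator_of_notMem (show x ∉ (fun x => (x, y)) ⁻¹' S t from hx)]
    rw [h4, lintegral_indicator_const (measurable_prodMk_right (hSm t)), sq]
  rw [← h2]
  set l := c0 / M with hl
  have hl0 : 0 ≤ l := by positivity
  have h5 : ∀ a : ℝ≥0∞, ENNReal.ofReal (2 * l) * a ≤ a ^ 2 + ENNReal.ofReal (l ^ 2) := by
    intro a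
    rcases eq_or_ne a ⊤ with rfl | ha
    · simp
    · lift a to NNReal using ha
      rw [← ENNReal.ofReal_coe_nnreal, ← ENNReal.ofReal_mul (by positivity),
        ← ENNReal.ofReal_pow (NNReal.coe_nonneg a), ← ENNReal.ofReal_add (by positivity) (by positivity)]
      apply ENNReal.ofReal_le_ofReal
      nlinarith [sq_nonneg ((a : ℝ) - l)]
  have h6 : ENNReal.ofReal (2 * l) * ENNReal.ofReal c0 ≤
      ∑ t ∈ T, ∫⁻ y, g t y ^ 2 ∂ν + ENNReal.ofReal (M * l ^ 2) := by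
    calc _ ≤ ENNReal.ofReal (2 * l) * ∑ t ∈ T, ∫⁻ y, g t y ∂ν := by
          rw [← h1]; exact mul_le_mul_right hc _
      _ = ∑ t ∈ T, ∫⁻ y, ENNReal.ofReal (2 * l) * g t y ∂ν := by
          rw [Finset.mul_sum]
          exact Finset.sum_congr rfl fun t _ => (lintegral_const_mul _ (hgm t)).symm
      _ ≤ ∑ t ∈ T, (∫⁻ y, g t y ^ 2 ∂ν + ENNReal.ofReal (l ^ 2)) := by
          refine Finset.sum_le_sum fun t _ => (lintegral_mono fun y => h5 (g t y)).trans ?_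
          rw [lintegral_add_right _ measurable_const]
          simp
      _ ≤ _ := by
          rw [Finset.sum_add_distrib, Finset.sum_const, nsmul_eq_mul,
            ENNReal.ofReal_mul hM.le]
          gcongr
          rw [← ENNReal.ofReal_natCast]
          exact ENNReal.ofReal_le_ofReal hTM
  have h7 : ENNReal.ofReal (2 * l) * ENNReal.ofReal c0 =
      ENNReal.ofReal (c0 ^ 2 / M) + ENNReal.ofReal (M * l ^ 2) := by
    rw [← ENNReal.ofReal_mul (by positivity), ← ENNReal.ofReal_add (by positivity) (by positivity)]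
    congr 1
    rw [hl]; field_simp; ring
  rw [h7] at h6
  exact (ENNReal.add_le_add_iff_right ENNReal.ofReal_ne_top).1 h6

lemma select_ball {E : Type*} [PseudoMetricSpace E] [SecondCountableTopology E]
    [MeasurableSpace E] (μ : Measure E) [IsFiniteMeasure μ] (hμ : μ univ ≠ 0) {C s : ℝ}
    (hC : 0 ≤ C) (hF : ∀ x r, 0 < r → μ (ball x r) ≤ ENNReal.ofReal (C * r ^ s)) {r0 : ℝ}
    (hr0 : 0 < r0) :
    ∃ x0 r, 0 < r ∧ r ≤ r0 ∧ μ (ball x0 r) ≠ 0 ∧ ∀ w ρ, 0 < ρ → ρ ≤ 1 →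
      μ (ball w (r * ρ)) ≤ μ (ball x0 r) * ENNReal.ofReal (2 * ρ ^ s) := by
  set S : Set ℝ := {v | ∃ w ρ, 0 < ρ ∧ ρ ≤ r0 ∧ v = μ.real (ball w ρ) / ρ ^ s} with hS
  have hb : BddAbove S := by
    refine ⟨C, ?_⟩
    rintro _ ⟨w, ρ, h0, -, rfl⟩
    rw [div_le_iff₀ (by positivity)]
    exact ENNReal.toReal_le_of_le_ofReal (by positivity) (hF w ρ h0)
  obtain ⟨x, -, hx⟩ := exists_mem_forall_mem_nhdsWithin_pos_measure hμ
  have hx1 : 0 < μ (ball x r0) := hx _ (mem_nhdsWithin_of_mem_nhds (ball_mem_nhds x hr0))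
  have hx2 : μ.real (ball x r0) / r0 ^ s ∈ S := ⟨x, r0, hr0, le_rfl, rfl⟩
  have hx3 : 0 < μ.real (ball x r0) / r0 ^ s :=
    div_pos (ENNReal.toReal_pos hx1.ne' (measure_ne_top _ _)) (by positivity)
  have hσ : 0 < sSup S := hx3.trans_le (le_csSup hb hx2)
  obtain ⟨_, ⟨x0, r, hr, hrr, rfl⟩, hv⟩ := exists_lt_of_lt_csSup ⟨_, hx2⟩ (half_lt_self hσ)
  refine ⟨x0, r, hr, hrr, ?_, fun w ρ hρ hρ1 => ?_⟩
  · intro h0
    simp only [Measure.real, h0, ENNReal.toReal_zero, zero_div] at hv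
    linarith
  · have h1 : μ.real (ball w (r * ρ)) / (r * ρ) ^ s ≤ sSup S :=
      le_csSup hb ⟨w, r * ρ, by positivity, by nlinarith, rfl⟩
    rw [div_le_iff₀ (by positivity), Real.mul_rpow hr.le hρ.le] at h1
    rw [lt_div_iff₀ (by positivity)] at hv
    rw [← ofReal_measureReal (measure_ne_top μ (ball w (r * ρ))),
      ← ofReal_measureReal (measure_ne_top μ (ball x0 r)),
      ← ENNReal.ofReal_mul measureReal_nonneg]
    apply ENNReal.ofReal_le_ofReal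
    have : 0 < ρ ^ s := by positivity
    nlinarith

variable {E : Type*} [NormedAddCommGroup E] [InnerProductSpace ℝ E]

lemma geo1 {a b x y : E} {d : ℝ} (hd : 0 < d) (hab : ‖b - a‖ = d) (hx : ‖x - a‖ < d / 10)
    (hy : ‖y - b‖ < d / 10) :
    4 * d / 5 ≤ ⟪d⁻¹ • (b - a), y - x⟫ ∧ ‖y - x‖ ≤ 6 * d / 5 ∧
      ⟪d⁻¹ • (b - a), y - x⟫ ≤ ‖y - x‖ := by
  have he : ‖d⁻¹ • (b - a)‖ = 1 := by
    rw [norm_smul, hab, norm_inv, Real.norm_eq_abs, abs_of_pos hd, inv_mul_cancel₀ hd.ne']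
  have e1 : y - x = (b - a) + ((y - b) - (x - a)) := by abel
  have e2 : ‖(y - b) - (x - a)‖ ≤ d / 5 := (norm_sub_le _ _).trans (by linarith)
  refine ⟨?_, ?_, ?_⟩
  · rw [e1, inner_add_right, real_inner_smul_left (b - a) (b - a), real_inner_self_eq_norm_sq, hab]
    have := abs_real_inner_le_norm (d⁻¹ • (b - a)) ((y - b) - (x - a))
    rw [he, one_mul] at this
    have h2 := (abs_le.1 (this.trans e2)).1
    have h3 : d⁻¹ * d ^ 2 = d := by field_simp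
    linarith
  · rw [e1]
    exact (norm_add_le _ _).trans (by linarith)
  · have := real_inner_le_norm (d⁻¹ • (b - a)) (y - x)
    rwa [he, one_mul] at this

lemma geo2 {x y y0 w : E} {h h0 ρ d : ℝ} (hh : 0 < h) (hd : h ≤ 6 * d / 5)
    (h1 : ‖h⁻¹ • (y - x) - w‖ < ρ) (h2 : ‖h0⁻¹ • (y0 - x) - w‖ < ρ) :
    ∃ t : ℝ, dist y (x + t • (y0 - x)) < 3 * d * ρ := by
  refine ⟨h * h0⁻¹, ?_⟩
  have hρ : 0 < ρ := (norm_nonneg _).trans_lt h1
  have e1 : y - (x + (h * h0⁻¹) • (y0 - x)) =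
      h • ((h⁻¹ • (y - x) - w) - (h0⁻¹ • (y0 - x) - w)) := by
    rw [sub_sub_sub_cancel_right, smul_sub h, smul_smul, smul_smul, mul_inv_cancel₀ hh.ne',
      one_smul]
    abel
  rw [dist_eq_norm, e1, norm_smul, Real.norm_eq_abs, abs_of_pos hh]
  have e2 : ‖(h⁻¹ • (y - x) - w) - (h0⁻¹ • (y0 - x) - w)‖ < 2 * ρ :=
    (norm_sub_le _ _).trans_lt (by linarith)
  calc _ < h * (2 * ρ) := by gcongr
    _ ≤ 6 * d / 5 * (2 * ρ) := by gcongr
    _ ≤ _ := by nlinarith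

lemma geo3 {x0 x z y : E} {r h d : ℝ} (hr : 0 < r) (hd : 0 < d) (hx : ‖x - x0‖ < r)
    (hz : ‖z - x0‖ < r) (hh : 4 * d / 5 ≤ h) (hk : |‖y - z‖ ^ 2 - ‖y - x‖ ^ 2| ≤ r ^ 2) :
    |⟪h⁻¹ • (y - x), r⁻¹ • (z - x0) - r⁻¹ • (x - x0)⟫| ≤ 4 * r / d := by
  have hh0 : 0 < h := by linarith
  rw [← smul_sub, sub_sub_sub_cancel_right, real_inner_smul_left, real_inner_smul_right,
    abs_mul, abs_mul, abs_of_pos (inv_pos.2 hh0), abs_of_pos (inv_pos.2 hr)]
  have e1 := norm_sub_sq_real (y - x) (z - x)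
  rw [sub_sub_sub_cancel_right] at e1
  have e2 : ‖z - x‖ ≤ 2 * r := by
    rw [← sub_sub_sub_cancel_right z x x0]
    exact (norm_sub_le _ _).trans (by linarith)
  have e3 : ‖z - x‖ ^ 2 ≤ (2 * r) ^ 2 := by gcongr
  have e4 : |⟪y - x, z - x⟫| ≤ 5 * r ^ 2 / 2 := by
    have := abs_le.1 hk
    rw [abs_le]
    constructor <;> nlinarith [sq_nonneg ‖z - x‖]
  calc _ ≤ (4 * d / 5)⁻¹ * (r⁻¹ * (5 * r ^ 2 / 2)) := by gcongr
    _ = 25 / 8 * r / d := by field_simp; ring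
    _ ≤ _ := by gcongr; norm_num

omit [InnerProductSpace ℝ E] in
lemma geo4 {x0 x y : E} {r d : ℝ} (hrd : r ≤ d) (hx : ‖x - x0‖ < r)
    (hy : ‖y - x‖ ≤ 6 * d / 5) : |‖y - x‖ ^ 2 - ‖y - x0‖ ^ 2| ≤ 4 * d * r := by
  have hr : 0 < r := (norm_nonneg _).trans_lt hx
  have e1 : |‖y - x‖ - ‖y - x0‖| ≤ r := by
    refine (abs_norm_sub_norm_le _ _).trans ?_
    rw [sub_sub_sub_cancel_left]
    rw [norm_sub_rev]; exact hx.le
  have e2 := abs_le.1 e1
  rw [sq_sub_sq, abs_mul, abs_of_nonneg (by positivity), mul_comm]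
  calc _ ≤ r * (4 * d) :=
        mul_le_mul e1 (by linarith) (by positivity) hr.le
    _ = _ := by ring

lemma compact_end {K : Set E} (hK : IsCompact K) {a b : ℝ} (ha : 0 < a) (hb : 0 < b)
    (h : ∀ m : ℝ, 0 < m → ∃ x ∈ K, ∃ y ∈ K, ∃ z ∈ K, a ≤ ‖x - z‖ ∧ b ≤ ‖y - x‖ ∧ b ≤ ‖y - z‖ ∧
      |⟪y - x, z - x⟫| < m) :
    ∃ x ∈ K, ∃ y ∈ K, ∃ z ∈ K, x ≠ y ∧ y ≠ z ∧ x ≠ z ∧ ⟪x - y, z - y⟫ = 0 := by
  set T : Set (E × E × E) := (K ×ˢ K ×ˢ K) ∩
    {q | a ≤ ‖q.1 - q.2.2‖ ∧ b ≤ ‖q.2.1 - q.1‖ ∧ b ≤ ‖q.2.1 - q.2.2‖} with hT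
  have hTc : IsCompact T := by
    refine (hK.prod (hK.prod hK)).inter_right ?_
    have c1 : IsClosed {q : E × E × E | a ≤ ‖q.1 - q.2.2‖} :=
      isClosed_le continuous_const (by fun_prop)
    have c2 : IsClosed {q : E × E × E | b ≤ ‖q.2.1 - q.1‖} :=
      isClosed_le continuous_const (by fun_prop)
    have c3 : IsClosed {q : E × E × E | b ≤ ‖q.2.1 - q.2.2‖} :=
      isClosed_le continuous_const (by fun_prop)
    exact c1.inter (c2.inter c3)
  have hne : T.Nonempty := by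
    obtain ⟨x, hx, y, hy, z, hz, h1, h2, h3, -⟩ := h 1 one_pos
    exact ⟨(x, y, z), ⟨hx, hy, hz⟩, h1, h2, h3⟩
  obtain ⟨⟨x, y, z⟩, ⟨⟨hx, hy, hz⟩, h1, h2, h3⟩, hmin⟩ := hTc.exists_isMinOn hne
    (f := fun q : E × E × E => |⟪q.2.1 - q.1, q.2.2 - q.1⟫|) (by fun_prop)
  refine ⟨y, hy, x, hx, z, hz, ?_, ?_, ?_, ?_⟩
  · rintro rfl; simp at h2; linarith
  · rintro rfl; simp at h1; linarith
  · rintro rfl; simp at h3; linarith
  · by_contra h0
    obtain ⟨x', hx', y', hy', z', hz', k1, k2, k3, k4⟩ := h _ (abs_pos.2 h0)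
    have := hmin (a := (x', y', z')) ⟨⟨hx', hy', hz'⟩, k1, k2, k3⟩
    exact absurd k4 (not_lt.2 this)

end Pool.Agent.P.MP_bf60a1_an
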